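import Mathlib

set_option autoImplicit false

namespace Pool.Agent.H797Z

open Filter Topology

/-- the tent function -/
noncomputable def tent (u : ℝ) : ℝ := max 0 (1 - |u|)

theorem continuous_tent : Continuous tent := by
  unfold tent; fun_prop

theorem tent_split (u : ℝ) :
    tent u = (1 / 2) * tent (2 * u + 1) + tent (2 * u) + (1 / 2) * tent (2 * u - 1) := by
  have t0 : ∀ v : ℝ, v ≤ -1 → tent v = 0 := fun v hv =>
    max_eq_left (by rw [abs_of_nonpos (by linarith)]; linarith)
  have t1 : ∀ v : ℝ, -1 ≤ v → v ≤ 0 → tent v = 1 + v := fun v h1 h2 => by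
    unfold tent; rw [abs_of_nonpos h2, max_eq_right (by linarith)]; ring
  have t2 : ∀ v : ℝ, 0 ≤ v → v ≤ 1 → tent v = 1 - v := fun v h1 h2 => by
    unfold tent; rw [abs_of_nonneg h1, max_eq_right (by linarith)]
  have t3 : ∀ v : ℝ, 1 ≤ v → tent v = 0 := fun v hv =>
    max_eq_left (by rw [abs_of_nonneg (by linarith)]; linarith)
  rcases le_total u (-1) with h1 | h1
  · rw [t0 u h1, t0 (2 * u + 1) (by linarith), t0 (2 * u) (by linarith),
      t0 (2 * u - 1) (by linarith)]; ring
  rcases le_total u (-1 / 2) with h2 | h2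
  · rw [t1 u h1 (by linarith), t1 (2 * u + 1) (by linarith) (by linarith), t0 (2 * u) (by linarith),
      t0 (2 * u - 1) (by linarith)]; ring
  rcases le_total u 0 with h3 | h3
  · rw [t1 u h1 h3, t2 (2 * u + 1) (by linarith) (by linarith),
      t1 (2 * u) (by linarith) (by linarith), t0 (2 * u - 1) (by linarith)]; ring
  rcases le_total u (1 / 2) with h4 | h4
  · rw [t2 u h3 (by linarith), t3 (2 * u + 1) (by linarith),
      t2 (2 * u) (by linarith) (by linarith), t1 (2 * u - 1) (by linarith) (by linarith)]; ring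
  rcases le_total u 1 with h5 | h5
  · rw [t2 u h3 h5, t3 (2 * u + 1) (by linarith),
      t3 (2 * u) (by linarith), t2 (2 * u - 1) (by linarith) (by linarith)]; ring
  · rw [t3 u h5, t3 (2 * u + 1) (by linarith),
      t3 (2 * u) (by linarith), t3 (2 * u - 1) (by linarith)]; ring

theorem tent_nonneg (u : ℝ) : 0 ≤ tent u := le_max_left _ _

theorem tent_le_one (u : ℝ) : tent u ≤ 1 := max_le zero_le_one (by linarith [abs_nonneg u])

theorem tent_eq_zero {u : ℝ} (h : 1 ≤ |u|) : tent u = 0 := max_eq_left (by linarith)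

variable {B : Type*} [CStarAlgebra B]

/-- the bump of centre `c` and radius `r` applied to `h` -/
noncomputable def bump (h : B) (c r : ℝ) : B := cfc (fun s : ℝ => tent ((s - c) / r)) h

theorem bump_split (h : B) (c r : ℝ) (hr : 0 < r) :
    bump h c r = (1 / 2 : ℝ) • bump h (c - r / 2) (r / 2) + bump h c (r / 2)
      + (1 / 2 : ℝ) • bump h (c + r / 2) (r / 2) := by
  have hc : ∀ c r : ℝ, Continuous (fun s : ℝ => tent ((s - c) / r)) := fun c r =>
    continuous_tent.comp (by fun_prop)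
  unfold bump
  rw [← cfc_smul (1 / 2 : ℝ) _ h (hc _ _).continuousOn,
    ← cfc_smul (1 / 2 : ℝ) _ h (hc _ _).continuousOn,
    ← cfc_add h _ _ (by unfold tent; fun_prop) (hc _ _).continuousOn,
    ← cfc_add h _ _ (by unfold tent; fun_prop)
      (by unfold tent; fun_prop)]
  congr 1
  funext s
  rw [tent_split]
  have e1 : (s - (c - r / 2)) / (r / 2) = 2 * ((s - c) / r) + 1 := by field_simp; ring
  have e2 : (s - c) / (r / 2) = 2 * ((s - c) / r) := by field_simp
  have e3 : (s - (c + r / 2)) / (r / 2) = 2 * ((s - c) / r) - 1 := by field_simp; ring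
  simp only [e1, e2, e3, smul_eq_mul]

theorem exists_half (D h : B) (c r : ℝ) (hr : 0 < r) :
    ∃ c', |c' - c| ≤ r / 2 ∧
      ‖D * bump h c r * star D‖ ≤ 2 * ‖D * bump h c' (r / 2) * star D‖ := by
  set x := ‖D * bump h (c - r / 2) (r / 2) * star D‖
  set y := ‖D * bump h c (r / 2) * star D‖
  set z := ‖D * bump h (c + r / 2) (r / 2) * star D‖
  have key : ‖D * bump h c r * star D‖ ≤ (1 / 2) * x + y + (1 / 2) * z := by
    rw [bump_split h c r hr]
    simp only [mul_add, add_mul, mul_smul_comm, smul_mul_assoc]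
    refine (norm_add_le _ _).trans (add_le_add ((norm_add_le _ _).trans (add_le_add ?_ le_rfl)) ?_)
    · rw [norm_smul]; simp [x]
    · rw [norm_smul]; simp [z]
  have hr2 : 0 ≤ r / 2 := by positivity
  by_cases hxy : x ≤ y
  · by_cases hzy : z ≤ y
    · exact ⟨c, by simpa using hr2, by linarith⟩
    · exact ⟨c + r / 2, by simp [abs_of_nonneg hr2], by linarith⟩
  · by_cases hzx : z ≤ x
    · exact ⟨c - r / 2, by simp [abs_of_nonneg hr2], by linarith⟩
    · exact ⟨c + r / 2, by simp [abs_of_nonneg hr2], by linarith⟩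

theorem bump_bound (w h : B) (hh : IsSelfAdjoint h) (l c r : ℝ) (hr : 0 < r) (hl : |c - l| ≤ r) :
    ‖(w * (h - algebraMap ℝ B l)) * bump h c r * star (w * (h - algebraMap ℝ B l))‖
      ≤ ‖w‖ ^ 2 * (2 * r) ^ 2 := by
  have hc : Continuous (fun s : ℝ => tent ((s - c) / r)) := continuous_tent.comp (by fun_prop)
  have e1 : h - algebraMap ℝ B l = cfc (fun s : ℝ => s - l) h := by
    rw [cfc_sub _ _ h, cfc_id' ℝ h, cfc_const l h]
  have hsa : star (h - algebraMap ℝ B l) = h - algebraMap ℝ B l := by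
    rw [e1]; exact (cfc_predicate (R := ℝ) _ h).star_eq
  have e2 : (h - algebraMap ℝ B l) * bump h c r * (h - algebraMap ℝ B l)
      = cfc (fun s : ℝ => (s - l) * tent ((s - c) / r) * (s - l)) h := by
    rw [e1, bump, ← cfc_mul _ _ h (by fun_prop) hc.continuousOn,
      ← cfc_mul _ _ h (by fun_prop) (by fun_prop)]
  have e3 : ‖cfc (fun s : ℝ => (s - l) * tent ((s - c) / r) * (s - l)) h‖ ≤ (2 * r) ^ 2 := by
    refine norm_cfc_le (by positivity) fun s _ => ?_
    by_cases hs : 1 ≤ |(s - c) / r|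
    · rw [tent_eq_zero hs]; simp; positivity
    · push Not at hs
      rw [abs_div, abs_of_pos hr, div_lt_one hr] at hs
      have h1 : |s - l| ≤ 2 * r := by
        have := abs_sub_le s c l
        linarith
      have h2 : (s - l) ^ 2 ≤ (2 * r) ^ 2 := by
        rw [← sq_abs]; exact pow_le_pow_left₀ (abs_nonneg _) h1 2
      have h3 := tent_nonneg ((s - c) / r)
      have h4 := tent_le_one ((s - c) / r)
      rw [Real.norm_eq_abs, abs_of_nonneg (by nlinarith [sq_nonneg (s - l)])]
      nlinarith [sq_nonneg (s - l)]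
  have e4 : (w * (h - algebraMap ℝ B l)) * bump h c r * star (w * (h - algebraMap ℝ B l))
      = w * ((h - algebraMap ℝ B l) * bump h c r * (h - algebraMap ℝ B l)) * star w := by
    rw [star_mul, hsa]; simp only [mul_assoc]
  rw [e4, e2]
  calc _ ≤ ‖w‖ * (2 * r) ^ 2 * ‖star w‖ :=
        (norm_mul_le _ _).trans (mul_le_mul_of_nonneg_right
          ((norm_mul_le _ _).trans (mul_le_mul_of_nonneg_left e3 (norm_nonneg _))) (norm_nonneg _))
    _ = _ := by rw [norm_star]; ring

theorem bump_eq_zero (D h : B) (hh : IsSelfAdjoint h)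
    (hD : ∀ l : ℝ, ∃ w, D = w * (h - algebraMap ℝ B l)) (r : ℝ) (hr : 0 < r) :
    D * bump h 0 r * star D = 0 := by
  choose f hf1 hf2 using fun c (n : ℕ) => exists_half D h c (r / 2 ^ n) (by positivity)
  let c : ℕ → ℝ := fun n => Nat.rec 0 (fun n c => f c n) n
  have hc : ∀ n, c (n + 1) = f (c n) n := fun n => rfl
  have hd : ∀ n, dist (c n) (c (n + 1)) ≤ r / 2 / 2 ^ n := by
    intro n
    rw [dist_comm, Real.dist_eq, hc]
    refine (hf1 _ _).trans (le_of_eq ?_)
    ring
  obtain ⟨l, hl⟩ := cauchySeq_tendsto_of_complete (cauchySeq_of_le_geometric_two hd)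
  have hdl : ∀ n, |c n - l| ≤ r / 2 ^ n := fun n => by
    simpa [Real.dist_eq] using dist_le_of_le_geometric_two_of_tendsto hd hl n
  obtain ⟨w, hw⟩ := hD l
  have hind : ∀ n : ℕ, ‖D * bump h 0 r * star D‖
      ≤ 2 ^ n * ‖D * bump h (c n) (r / 2 ^ n) * star D‖ := by
    intro n
    induction n with
    | zero => simp [c]
    | succ n ih =>
      have := hf2 (c n) n
      rw [← hc, show r / 2 ^ n / 2 = r / 2 ^ (n + 1) by ring] at this
      calc _ ≤ _ := ih
        _ ≤ 2 ^ n * (2 * ‖D * bump h (c (n + 1)) (r / 2 ^ (n + 1)) * star D‖) := by gcongr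
        _ = _ := by ring
  have hb : ∀ n : ℕ, ‖D * bump h 0 r * star D‖ ≤ (‖w‖ ^ 2 * (2 * r) ^ 2) * (1 / 2) ^ n := by
    intro n
    have := bump_bound w h hh l (c n) (r / 2 ^ n) (by positivity) (hdl n)
    rw [← hw] at this
    calc _ ≤ _ := hind n
      _ ≤ 2 ^ n * (‖w‖ ^ 2 * (2 * (r / 2 ^ n)) ^ 2) := by gcongr
      _ = _ := by rw [one_div, inv_pow]; field_simp
  have ht : Tendsto (fun n : ℕ => (‖w‖ ^ 2 * (2 * r) ^ 2) * (1 / 2 : ℝ) ^ n) atTop (𝓝 0) := by
    simpa using (tendsto_pow_atTop_nhds_zero_of_lt_one (r := (1 / 2 : ℝ)) (by norm_num)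
      (by norm_num)).const_mul (‖w‖ ^ 2 * (2 * r) ^ 2)
  exact norm_le_zero_iff.mp (ge_of_tendsto' ht hb)

/-- An element which lies in all the left ideals `B (h - l)`, `l` real, vanishes. -/
theorem eq_zero_of_forall_mem (D h : B) (hh : IsSelfAdjoint h)
    (hD : ∀ l : ℝ, ∃ w, D = w * (h - algebraMap ℝ B l)) : D = 0 := by
  have key : ∀ r : ℝ, 0 < r → ‖D * star D‖ ≤ ‖D‖ ^ 2 * ‖h‖ / r := by
    intro r hr
    have hc : Continuous (fun s : ℝ => tent ((s - 0) / r)) := continuous_tent.comp (by fun_prop)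
    have e1 : 1 - bump h 0 r = cfc (fun s : ℝ => 1 - tent ((s - 0) / r)) h := by
      rw [cfc_sub _ _ h (by fun_prop) hc.continuousOn, cfc_const_one ℝ h, bump]
    have e2 : ‖1 - bump h 0 r‖ ≤ ‖h‖ / r := by
      rw [e1]
      refine norm_cfc_le (by positivity) fun s hs => ?_
      have h1 : |s| ≤ ‖h‖ := by
        rcases subsingleton_or_nontrivial B with hB | hB
        · simp at hs
        · simpa using spectrum.norm_le_norm_of_mem hs
      have h2 := tent_le_one ((s - 0) / r)
      have h3 : 1 - |(s - 0) / r| ≤ tent ((s - 0) / r) := le_max_right _ _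
      rw [Real.norm_eq_abs, abs_of_nonneg (by linarith)]
      rw [sub_zero, abs_div, abs_of_pos hr] at h3
      rw [sub_zero]
      have : |s| / r ≤ ‖h‖ / r := by gcongr
      linarith
    have e3 : D * star D = D * (1 - bump h 0 r) * star D := by
      rw [mul_sub, sub_mul, bump_eq_zero D h hh hD r hr]; simp
    rw [e3]
    calc _ ≤ ‖D‖ * (‖h‖ / r) * ‖star D‖ :=
          (norm_mul_le _ _).trans (mul_le_mul_of_nonneg_right
            ((norm_mul_le _ _).trans (mul_le_mul_of_nonneg_left e2 (norm_nonneg _)))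
            (norm_nonneg _))
      _ = _ := by rw [norm_star]; ring
  have ht : Tendsto (fun r : ℝ => ‖D‖ ^ 2 * ‖h‖ / r) atTop (𝓝 0) :=
    tendsto_const_nhds.div_atTop tendsto_id
  have h0 : ‖D * star D‖ ≤ 0 :=
    ge_of_tendsto ht ((eventually_gt_atTop 0).mono fun r hr => key r hr)
  rw [CStarRing.norm_self_mul_star] at h0
  have : ‖D‖ = 0 := by nlinarith [norm_nonneg D]
  exact norm_eq_zero.mp this

end Pool.Agent.H797Z
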