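import Mathlib

set_option autoImplicit false

namespace Pool.Agent.H797Z

open Filter Topology Complex

/-- the character `θ ↦ exp (2 π i k θ)` -/
noncomputable def ch (k : ℤ) (θ : ℝ) : ℂ := Complex.exp (2 * Real.pi * Complex.I * k * θ)

theorem ch_add (j k : ℤ) (θ : ℝ) : ch (j + k) θ = ch j θ * ch k θ := by
  unfold ch; rw [← Complex.exp_add]; congr 1; push_cast; ring

theorem ch_zero (θ : ℝ) : ch 0 θ = 1 := by simp [ch]

theorem ch_zero' (k : ℤ) : ch k 0 = 1 := by simp [ch]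

theorem star_ch (k : ℤ) (θ : ℝ) : star (ch k θ) = ch (-k) θ := by
  unfold ch
  rw [Complex.star_def, ← Complex.exp_conj]
  congr 1
  simp only [map_mul, Complex.conj_ofReal, Complex.conj_I, map_ofNat, map_intCast]
  push_cast; ring

theorem continuous_ch (k : ℤ) : Continuous (ch k) := by
  unfold ch; fun_prop

theorem integral_ch {k : ℤ} (hk : k ≠ 0) : ∫ θ in (0 : ℝ)..1, ch k θ = 0 := by
  unfold ch
  have hc : (2 * Real.pi * Complex.I * k : ℂ) ≠ 0 := by
    simp [Real.pi_ne_zero, hk]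
  rw [integral_exp_mul_complex hc]
  have : Complex.exp (2 * Real.pi * Complex.I * k * ((1 : ℝ) : ℂ)) = 1 := by
    rw [show (2 * Real.pi * Complex.I * k * ((1 : ℝ) : ℂ) : ℂ) = k * (2 * Real.pi * Complex.I) by
      push_cast; ring]
    exact Complex.exp_int_mul_two_pi_mul_I k
  rw [this]; simp

/-- A unital C*-algebra with a coefficient algebra, a concrete correspondence and a gauge
action. -/
structure Setup (B : Type*) [CStarAlgebra B] where
  A : StarSubalgebra ℂ B
  X : Submodule ℂ B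
  γ : ℝ → B →⋆ₙₐ[ℂ] B
  A_closed : IsClosed (A : Set B)
  X_closed : IsClosed (X : Set B)
  mul_left : ∀ a ∈ A, ∀ t ∈ X, a * t ∈ X
  mul_right : ∀ a ∈ A, ∀ t ∈ X, t * a ∈ X
  star_mul_mem : ∀ s ∈ X, ∀ t ∈ X, star s * t ∈ A
  γ_A : ∀ θ, ∀ a ∈ A, γ θ a = a
  γ_X : ∀ θ, ∀ t ∈ X, γ θ t = ch 1 θ • t
  γ_cont : ∀ y, Continuous fun θ => γ θ y

namespace Setup

variable {B : Type*} [CStarAlgebra B] (s : Setup B)

/-- polynomials of degree `k` -/
noncomputable def V : ℕ → Submodule ℂ B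
  | 0 => Subalgebra.toSubmodule s.A.toSubalgebra
  | k + 1 => V k * s.X

theorem mem_V_zero {a : B} : a ∈ s.V 0 ↔ a ∈ s.A := Iff.rfl

theorem V_succ (k : ℕ) : s.V (k + 1) = s.V k * s.X := rfl

theorem X_le_V : ∀ t ∈ s.X, t ∈ s.V 1 := fun t ht => by
  have := Submodule.mul_mem_mul (M := s.V 0) (N := s.X) (s.mem_V_zero.2 (one_mem _)) ht
  rwa [one_mul] at this

theorem γ_V (θ : ℝ) : ∀ (k : ℕ), ∀ y ∈ s.V k, s.γ θ y = ch k θ • y
  | 0, y, hy => by rw [s.γ_A θ y hy]; simp [ch_zero]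
  | k + 1, y, hy => by
    refine Submodule.mul_induction_on hy ?_ ?_
    · intro m hm n hn
      rw [map_mul, γ_V θ k m hm, s.γ_X θ n hn, smul_mul_smul_comm, ← ch_add]
      norm_cast
    · intro a b ha hb
      rw [map_add, ha, hb, smul_add]

theorem star_mul_V : ∀ (k : ℕ), ∀ y ∈ s.V k, ∀ z ∈ s.V k, star y * z ∈ s.A
  | 0, y, hy, z, hz => mul_mem (star_mem (s.mem_V_zero.1 hy)) (s.mem_V_zero.1 hz)
  | k + 1, y, hy, z, hz => by
    refine Submodule.mul_induction_on hy ?_ ?_
    · intro m hm n hn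
      refine Submodule.mul_induction_on hz ?_ ?_
      · intro m' hm' n' hn'
        have h1 := star_mul_V k m hm m' hm'
        have := s.star_mul_mem n hn _ (s.mul_left _ h1 n' hn')
        simpa [star_mul, mul_assoc] using this
      · intro a b ha hb
        rw [mul_add]; exact add_mem ha hb
    · intro a b ha hb
      rw [star_add, add_mul]; exact add_mem ha hb

theorem V_mul_A : ∀ (k : ℕ), ∀ y ∈ s.V k, ∀ a ∈ s.A, y * a ∈ s.V k
  | 0, y, hy, a, ha => s.mem_V_zero.2 (mul_mem (s.mem_V_zero.1 hy) ha)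
  | k + 1, y, hy, a, ha => by
    refine Submodule.mul_induction_on hy ?_ ?_
    · intro m hm n hn
      rw [mul_assoc]
      exact Submodule.mul_mem_mul hm (s.mul_right a ha n hn)
    · intro x y hx hy
      rw [add_mul]; exact add_mem hx hy

theorem V_mul_V (j : ℕ) (y : B) (hy : y ∈ s.V j) : ∀ (k : ℕ), ∀ z ∈ s.V k, y * z ∈ s.V (j + k)
  | 0, z, hz => s.V_mul_A j y hy z hz
  | k + 1, z, hz => by
    refine Submodule.mul_induction_on hz ?_ ?_
    · intro m hm n hn
      rw [← mul_assoc]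
      exact Submodule.mul_mem_mul (V_mul_V j y hy k m hm) hn
    · intro a b ha hb
      rw [mul_add]; exact add_mem ha hb

/-- polynomials -/
noncomputable def P : Submodule ℂ B := ⨆ k, s.V k

theorem V_le_P (k : ℕ) : s.V k ≤ s.P := le_iSup s.V k

theorem P_induction {p : B → Prop} {y : B} (hy : y ∈ s.P) (hV : ∀ k, ∀ y ∈ s.V k, p y)
    (hadd : ∀ y z, p y → p z → p (y + z)) : p y :=
  Submodule.iSup_induction s.V (motive := p) hy hV (hV 0 0 (zero_mem _)) hadd

theorem P_mul {y z : B} (hy : y ∈ s.P) (hz : z ∈ s.P) : y * z ∈ s.P := by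
  refine s.P_induction (p := fun y => y * z ∈ s.P) hy ?_ ?_
  · intro j y hy
    refine s.P_induction (p := fun z => y * z ∈ s.P) hz ?_ ?_
    · intro k z hz
      exact s.V_le_P _ (s.V_mul_V j y hy k z hz)
    · intro a b ha hb
      rw [mul_add]; exact add_mem ha hb
  · intro a b ha hb
    rw [add_mul]; exact add_mem ha hb

/-- the unital tensor algebra -/
noncomputable def T : Submodule ℂ B := s.P.topologicalClosure

theorem T_closed : IsClosed (s.T : Set B) := s.P.isClosed_topologicalClosure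

theorem P_le_T : s.P ≤ s.T := s.P.le_topologicalClosure

theorem V_le_T (k : ℕ) : s.V k ≤ s.T := (s.V_le_P k).trans s.P_le_T

theorem A_le_T {a : B} (ha : a ∈ s.A) : a ∈ s.T := s.V_le_T 0 ha

theorem X_le_T {t : B} (ht : t ∈ s.X) : t ∈ s.T := s.V_le_T 1 (s.X_le_V t ht)

theorem one_mem_T : (1 : B) ∈ s.T := s.A_le_T (one_mem _)

theorem T_induction {p : B → Prop} {y : B} (hy : y ∈ s.T) (hV : ∀ k, ∀ y ∈ s.V k, p y)
    (hadd : ∀ y z, p y → p z → p (y + z)) (hc : IsClosed {y | p y}) : p y :=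
  closure_minimal (s := (s.P : Set B)) (t := {y | p y})
    (fun _ hz => s.P_induction hz hV hadd) hc hy

theorem T_induction₂ {p : B → B → Prop} {y z : B} (hy : y ∈ s.T) (hz : z ∈ s.T)
    (hV : ∀ j, ∀ y ∈ s.V j, ∀ k, ∀ z ∈ s.V k, p y z)
    (hadd₁ : ∀ y y' z, p y z → p y' z → p (y + y') z)
    (hadd₂ : ∀ y z z', p y z → p y z' → p y (z + z'))
    (hc₁ : ∀ z, IsClosed {y | p y z}) (hc₂ : ∀ y, IsClosed {z | p y z}) : p y z :=
  s.T_induction (p := fun y => p y z) hy
    (fun j y hy => s.T_induction (p := fun z => p y z) hz (hV j y hy) (hadd₂ y) (hc₂ y))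
    (fun y y' => hadd₁ y y' z) (hc₁ z)

theorem T_mul {y z : B} (hy : y ∈ s.T) (hz : z ∈ s.T) : y * z ∈ s.T := by
  refine s.T_induction₂ (p := fun y z => y * z ∈ s.T) hy hz ?_ ?_ ?_ ?_ ?_
  · intro j y hy k z hz
    exact s.V_le_T _ (s.V_mul_V j y hy k z hz)
  · intro a b c ha hb
    rw [add_mul]; exact add_mem ha hb
  · intro a b c ha hb
    rw [mul_add]; exact add_mem ha hb
  · intro z
    exact s.T_closed.preimage (f := fun y => y * z) (by fun_prop)
  · intro y
    exact s.T_closed.preimage (f := fun z => y * z) (by fun_prop)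

theorem norm_γ_le (θ : ℝ) (y : B) : ‖s.γ θ y‖ ≤ ‖y‖ := NonUnitalStarAlgHom.norm_apply_le _ y

open scoped CStarAlgebra in
theorem continuous_γ (θ : ℝ) : Continuous (s.γ θ) := map_continuous (s.γ θ)

theorem γ_zero {y : B} (hy : y ∈ s.T) : s.γ 0 y = y := by
  refine s.T_induction (p := fun y => s.γ 0 y = y) hy ?_ ?_ ?_
  · intro k y hy
    rw [s.γ_V 0 k y hy, ch_zero', one_smul]
  · intro a b ha hb
    rw [map_add, ha, hb]
  · exact isClosed_eq (s.continuous_γ 0) continuous_id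

/-- averaging over the gauge action -/
noncomputable def E : B →L[ℂ] B :=
  LinearMap.mkContinuous
    { toFun := fun y => ∫ θ in (0 : ℝ)..1, s.γ θ y
      map_add' := fun y z => by
        simp only [map_add]
        exact intervalIntegral.integral_add ((s.γ_cont y).intervalIntegrable _ _)
          ((s.γ_cont z).intervalIntegrable _ _)
      map_smul' := fun c y => by
        simp only [map_smul, RingHom.id_apply]
        exact intervalIntegral.integral_smul c _ } 1
    (fun y => by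
      have := intervalIntegral.norm_integral_le_of_norm_le_const (a := 0) (b := 1) (C := ‖y‖)
        (f := fun θ => s.γ θ y) (fun θ _ => s.norm_γ_le θ y)
      simpa using this)

theorem E_apply (y : B) : s.E y = ∫ θ in (0 : ℝ)..1, s.γ θ y := rfl

theorem E_A {a : B} (ha : a ∈ s.A) : s.E a = a := by
  rw [E_apply]; simp [s.γ_A _ a ha]

theorem E_mul_A (y : B) {a : B} (ha : a ∈ s.A) : s.E (y * a) = s.E y * a := by
  rw [E_apply, E_apply]
  simp only [map_mul, s.γ_A _ a ha]
  exact ((ContinuousLinearMap.mul ℂ B).flip a).intervalIntegral_comp_comm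
    ((s.γ_cont y).intervalIntegrable _ _)

theorem E_V_ne {j k : ℕ} (hjk : j ≠ k) {y z : B} (hy : y ∈ s.V j) (hz : z ∈ s.V k) :
    s.E (star y * z) = 0 := by
  rw [E_apply]
  have : ∀ θ, s.γ θ (star y * z) = ch (-(j : ℤ) + k) θ • (star y * z) := by
    intro θ
    rw [map_mul, map_star, s.γ_V θ j y hy, s.γ_V θ k z hz, star_smul, star_ch, smul_mul_smul_comm,
      ch_add]
  simp only [this]
  rw [intervalIntegral.integral_smul_const, integral_ch (by omega), zero_smul]

theorem E_star_mul_mem {y z : B} (hy : y ∈ s.T) (hz : z ∈ s.T) : s.E (star y * z) ∈ s.A := by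
  refine s.T_induction₂ (p := fun y z => s.E (star y * z) ∈ s.A) hy hz ?_ ?_ ?_ ?_ ?_
  · intro j y hy k z hz
    by_cases hjk : j = k
    · subst hjk
      rw [s.E_A (s.star_mul_V j y hy z hz)]
      exact s.star_mul_V j y hy z hz
    · rw [s.E_V_ne hjk hy hz]; exact zero_mem _
  · intro a b c ha hb
    rw [star_add, add_mul, map_add]; exact add_mem ha hb
  · intro a b c ha hb
    rw [mul_add, map_add]; exact add_mem ha hb
  · intro z
    exact s.A_closed.preimage (f := fun y => s.E (star y * z)) (by fun_prop)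
  · intro y
    exact s.A_closed.preimage (f := fun z => s.E (star y * z)) (by fun_prop)

section order

variable [PartialOrder B] [StarOrderedRing B]

theorem int_nonneg {f : ℝ → B} {a b : ℝ} (hab : a ≤ b) (hf : ∀ θ, 0 ≤ f θ) :
    0 ≤ ∫ θ in a..b, f θ := by
  rw [intervalIntegral.integral_of_le hab]
  exact MeasureTheory.integral_nonneg hf

theorem γ_nonneg (θ : ℝ) {y : B} (hy : 0 ≤ y) : 0 ≤ s.γ θ y := by
  obtain ⟨b, rfl⟩ := CStarAlgebra.nonneg_iff_eq_star_mul_self.1 hy
  rw [map_mul, map_star]; exact star_mul_self_nonneg _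

theorem E_nonneg {y : B} (hy : 0 ≤ y) : 0 ≤ s.E y := by
  rw [E_apply]
  exact int_nonneg zero_le_one fun θ => s.γ_nonneg θ hy

theorem E_faithful {y : B} (hy : y ∈ s.T) (h : s.E (star y * y) = 0) : y = 0 := by
  set f : ℝ → B := fun θ => s.γ θ (star y * y) with hf
  have hc : Continuous f := s.γ_cont _
  have hpos : ∀ θ, 0 ≤ f θ := fun θ => s.γ_nonneg θ (star_mul_self_nonneg y)
  have h0 : ∀ ε ∈ Set.Icc (0 : ℝ) 1, ∫ θ in (0 : ℝ)..ε, f θ = 0 := by
    intro ε hε
    have h1 : (∫ θ in (0 : ℝ)..ε, f θ) + ∫ θ in ε..1, f θ = 0 := by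
      rw [intervalIntegral.integral_add_adjacent_intervals (hc.intervalIntegrable _ _)
        (hc.intervalIntegrable _ _)]
      exact h
    have h2 : 0 ≤ ∫ θ in (0 : ℝ)..ε, f θ :=
      int_nonneg hε.1 hpos
    have h3 : 0 ≤ ∫ θ in ε..1, f θ :=
      int_nonneg hε.2 hpos
    exact le_antisymm (by rw [← h1]; exact le_add_of_nonneg_right h3) h2
  have hd : HasDerivWithinAt (fun ε => ∫ θ in (0 : ℝ)..ε, f θ) (f 0) (Set.Icc 0 1) 0 :=
    (intervalIntegral.integral_hasDerivAt_right (hc.intervalIntegrable _ _)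
      (hc.stronglyMeasurableAtFilter _ _) hc.continuousAt).hasDerivWithinAt
  have hd' : HasDerivWithinAt (fun ε => ∫ θ in (0 : ℝ)..ε, f θ) 0 (Set.Icc 0 1) 0 :=
    (hasDerivWithinAt_const (0 : ℝ) (Set.Icc (0 : ℝ) 1) (0 : B)).congr h0
      (h0 0 ⟨le_rfl, zero_le_one⟩)
  have hf0 : f 0 = 0 :=
    (uniqueDiffOn_Icc zero_lt_one 0 ⟨le_rfl, zero_le_one⟩).eq_deriv _ hd hd'
  rw [hf] at hf0
  simp only [map_mul, map_star, s.γ_zero hy] at hf0
  exact (CStarRing.star_mul_self_eq_zero_iff y).1 hf0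

end order

end Setup

end Pool.Agent.H797Z
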