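import Mathlib
import Pool.Agent.H797Z.Gauge

set_option autoImplicit false

namespace Pool.Agent.H797Z

open Filter Topology Complex

/-- Concrete data of a Toeplitz representation with a gauge action, in a non-unital algebra. -/
structure PreSetup (B : Type*) [NonUnitalCStarAlgebra B] where
  A : NonUnitalStarSubalgebra ℂ B
  X : Submodule ℂ B
  γ : ℝ → B →⋆ₙₐ[ℂ] B
  mul_left : ∀ a ∈ A, ∀ t ∈ X, a * t ∈ X
  mul_right : ∀ a ∈ A, ∀ t ∈ X, t * a ∈ X
  star_mul_mem : ∀ s ∈ X, ∀ t ∈ X, star s * t ∈ A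
  γ_A : ∀ θ, ∀ a ∈ A, γ θ a = a
  γ_X : ∀ θ, ∀ t ∈ X, γ θ t = ch 1 θ • t
  gen : (NonUnitalStarAlgebra.adjoin ℂ ((A : Set B) ∪ X)).topologicalClosure = ⊤

namespace PreSetup

variable {B : Type*} [NonUnitalCStarAlgebra B] (p : PreSetup B)

theorem γ_cont (y : B) : Continuous fun θ => p.γ θ y := by
  have h1 : ∀ y ∈ NonUnitalStarAlgebra.adjoin ℂ ((p.A : Set B) ∪ p.X),
      Continuous fun θ => p.γ θ y := by
    intro y hy
    induction hy using NonUnitalStarAlgebra.adjoin_induction with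
    | mem x hx =>
      rcases hx with hx | hx
      · simp only [p.γ_A _ x hx]; exact continuous_const
      · simp only [p.γ_X _ x hx]; exact (continuous_ch 1).smul continuous_const
    | add x y _ _ hx hy => simp only [map_add]; exact hx.add hy
    | zero => simp only [map_zero]; exact continuous_const
    | mul x y _ _ hx hy => simp only [map_mul]; exact hx.mul hy
    | smul r x _ hx => simp only [map_smul]; exact hx.const_smul r
    | star x _ hx => simp only [map_star]; exact hx.star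
  have hy : y ∈ (NonUnitalStarAlgebra.adjoin ℂ ((p.A : Set B) ∪ p.X)).topologicalClosure := by
    rw [p.gen]; trivial
  refine continuous_of_uniform_approx_of_continuous fun u hu => ?_
  obtain ⟨ε, hε, hu'⟩ := Metric.mem_uniformity_dist.1 hu
  obtain ⟨z, hz, hyz⟩ := Metric.mem_closure_iff.1 hy ε hε
  refine ⟨fun θ => p.γ θ z, h1 z hz, fun θ => hu' ?_⟩
  rw [dist_eq_norm, ← map_sub]
  exact (NonUnitalStarAlgHom.norm_apply_le _ _).trans_lt (by rwa [← dist_eq_norm])

/-- the unitization of the coefficient algebra -/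
def A₁ : StarSubalgebra ℂ (Unitization ℂ B) where
  carrier := {x | x.snd ∈ p.A}
  mul_mem' := fun {x y} hx hy => by
    change (x * y).snd ∈ p.A
    rw [Unitization.snd_mul]
    exact add_mem (add_mem (SMulMemClass.smul_mem _ hy) (SMulMemClass.smul_mem _ hx))
      (mul_mem hx hy)
  add_mem' := fun {x y} hx hy => add_mem (s := p.A) hx hy
  algebraMap_mem' := fun r => zero_mem p.A
  star_mem' := fun {x} hx => star_mem (s := p.A) hx

/-- the correspondence inside the unitization -/
def X₁ : Submodule ℂ (Unitization ℂ B) where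
  carrier := {x | x.fst = 0 ∧ x.snd ∈ p.X}
  add_mem' := fun {x y} hx hy => ⟨by simp [hx.1, hy.1], add_mem (s := p.X) hx.2 hy.2⟩
  zero_mem' := ⟨rfl, zero_mem p.X⟩
  smul_mem' := fun c x hx => ⟨by simp [hx.1], p.X.smul_mem c hx.2⟩

theorem starMap_apply (φ : B →⋆ₙₐ[ℂ] B) (x : Unitization ℂ B) :
    Unitization.starMap φ x = Unitization.inl x.fst + (φ x.snd : Unitization ℂ B) := by
  conv_lhs => rw [← Unitization.inl_fst_add_inr_snd_eq x]
  rw [map_add, Unitization.starMap_inl, Unitization.starMap_inr]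
  rfl

/-- the unital set-up -/
noncomputable def setup : Setup (Unitization ℂ B) where
  A := p.A₁.topologicalClosure
  X := p.X₁.topologicalClosure
  γ θ := (Unitization.starMap (p.γ θ)).toNonUnitalStarAlgHom
  A_closed := p.A₁.isClosed_topologicalClosure
  X_closed := p.X₁.isClosed_topologicalClosure
  mul_left a ha t ht := map_mem_closure₂ (f := fun a t => a * t) continuous_mul ha ht
    fun a ha t ht => ⟨by simp [ht.1], by
      rw [Unitization.snd_mul, ht.1, zero_smul, add_zero]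
      exact add_mem (p.X.smul_mem _ ht.2) (p.mul_left _ ha _ ht.2)⟩
  mul_right a ha t ht := map_mem_closure₂ (f := fun a t => t * a) (by fun_prop) ha ht
    fun a ha t ht => ⟨by simp [ht.1], by
      rw [Unitization.snd_mul, ht.1, zero_smul, zero_add]
      exact add_mem (p.X.smul_mem _ ht.2) (p.mul_right _ ha _ ht.2)⟩
  star_mul_mem a ha t ht := map_mem_closure₂ (f := fun a t => star a * t) (by fun_prop) ha ht
    fun a ha t ht => by
      change (star a * t).snd ∈ p.A
      rw [Unitization.snd_mul, ht.1, Unitization.fst_star, ha.1, star_zero, zero_smul, zero_smul,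
        zero_add, zero_add, Unitization.snd_star]
      exact p.star_mul_mem _ ha.2 _ ht.2
  γ_A θ a ha := by
    open scoped CStarAlgebra in
    refine closure_minimal (s := (p.A₁ : Set (Unitization ℂ B)))
      (t := {a | Unitization.starMap (p.γ θ) a = a}) (fun a ha => ?_)
      (isClosed_eq (map_continuous _) continuous_id) ha
    change Unitization.starMap (p.γ θ) a = a
    rw [starMap_apply, p.γ_A θ _ ha, Unitization.inl_fst_add_inr_snd_eq]
  γ_X θ a ha := by
    open scoped CStarAlgebra in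
    refine closure_minimal (s := (p.X₁ : Set (Unitization ℂ B)))
      (t := {a | Unitization.starMap (p.γ θ) a = ch 1 θ • a}) (fun a ha => ?_)
      (isClosed_eq (map_continuous _) (by fun_prop)) ha
    change Unitization.starMap (p.γ θ) a = ch 1 θ • a
    rw [starMap_apply, p.γ_X θ _ ha.2, ha.1]
    ext
    · simp [ha.1]
    · simp
  γ_cont y := by
    change Continuous fun θ => Unitization.starMap (p.γ θ) y
    simp only [starMap_apply]
    exact continuous_const.add (Unitization.continuous_inr.comp (p.γ_cont _))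

/-- the tensor algebra -/
noncomputable def T₀ : NonUnitalSubalgebra ℂ B :=
  (NonUnitalAlgebra.adjoin ℂ ((p.A : Set B) ∪ p.X)).topologicalClosure

theorem T₀_closed : IsClosed (p.T₀ : Set B) := NonUnitalSubalgebra.isClosed_topologicalClosure _

theorem A_le_T₀ {a : B} (ha : a ∈ p.A) : a ∈ p.T₀ :=
  subset_closure (NonUnitalAlgebra.subset_adjoin ℂ (Or.inl ha))

theorem X_le_T₀ {a : B} (ha : a ∈ p.X) : a ∈ p.T₀ :=
  subset_closure (NonUnitalAlgebra.subset_adjoin ℂ (Or.inr ha))

theorem T₀_induction {q : B → Prop} {y : B} (hy : y ∈ p.T₀) (hA : ∀ a ∈ p.A, q a)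
    (hX : ∀ t ∈ p.X, q t) (hadd : ∀ y ∈ p.T₀, ∀ z ∈ p.T₀, q y → q z → q (y + z))
    (hmul : ∀ y ∈ p.T₀, ∀ z ∈ p.T₀, q y → q z → q (y * z))
    (hsmul : ∀ (c : ℂ), ∀ y ∈ p.T₀, q y → q (c • y))
    (hc : IsClosed {y | y ∈ p.T₀ ∧ q y}) : q y := by
  have h1 : ∀ y ∈ NonUnitalAlgebra.adjoin ℂ ((p.A : Set B) ∪ p.X), q y := by
    intro y hy
    induction hy using NonUnitalAlgebra.adjoin_induction with
    | mem x hx => exact hx.elim (hA x) (hX x)
    | add x y hx hy hx' hy' => exact hadd x (subset_closure hx) y (subset_closure hy) hx' hy'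
    | zero => exact hA 0 (zero_mem _)
    | mul x y hx hy hx' hy' => exact hmul x (subset_closure hx) y (subset_closure hy) hx' hy'
    | smul r x hx hx' => exact hsmul r x (subset_closure hx) hx'
  exact (closure_minimal (t := {y | y ∈ p.T₀ ∧ q y})
    (fun z hz => ⟨subset_closure hz, h1 z hz⟩) hc hy).2

theorem inr_mem_A {a : B} (ha : a ∈ p.A) : (a : Unitization ℂ B) ∈ p.setup.A :=
  subset_closure (s := (p.A₁ : Set (Unitization ℂ B))) ha

theorem inr_mem_X {a : B} (ha : a ∈ p.X) : (a : Unitization ℂ B) ∈ p.setup.X :=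
  subset_closure (s := (p.X₁ : Set (Unitization ℂ B))) ⟨rfl, ha⟩

theorem inr_mem_T {y : B} (hy : y ∈ p.T₀) : (y : Unitization ℂ B) ∈ p.setup.T := by
  refine p.T₀_induction (q := fun y => (y : Unitization ℂ B) ∈ p.setup.T) hy ?_ ?_ ?_ ?_ ?_ ?_
  · exact fun a ha => p.setup.A_le_T (p.inr_mem_A ha)
  · exact fun a ha => p.setup.X_le_T (p.inr_mem_X ha)
  · intro y _ z _ hy hz
    rw [Unitization.inr_add]; exact add_mem hy hz
  · intro y _ z _ hy hz
    rw [Unitization.inr_mul]; exact p.setup.T_mul hy hz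
  · intro c y _ hy
    rw [Unitization.inr_smul]; exact p.setup.T.smul_mem c hy
  · exact p.T₀_closed.inter (p.setup.T_closed.preimage Unitization.continuous_inr)

theorem mul_mem_T₀ {b : Unitization ℂ B} (hb : b ∈ p.setup.T) :
    ∀ x : Unitization ℂ B, x.fst = 0 ∧ x.snd ∈ p.T₀ → (x * b).fst = 0 ∧ (x * b).snd ∈ p.T₀ := by
  have hR : IsClosed {x : Unitization ℂ B | x.fst = 0 ∧ x.snd ∈ p.T₀} :=
    (isClosed_eq Unitization.continuous_fst continuous_const).inter
      (p.T₀_closed.preimage Unitization.continuous_snd)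
  have hcl : IsClosed {b : Unitization ℂ B | ∀ x : Unitization ℂ B,
      x.fst = 0 ∧ x.snd ∈ p.T₀ → (x * b).fst = 0 ∧ (x * b).snd ∈ p.T₀} := by
    simp only [Set.ofPred_forall]
    exact isClosed_iInter fun x => isClosed_iInter fun _ =>
      hR.preimage (f := fun b => x * b) (by fun_prop)
  have hbase : ∀ b : Unitization ℂ B, b.snd ∈ p.T₀ → ∀ x : Unitization ℂ B,
      x.fst = 0 ∧ x.snd ∈ p.T₀ → (x * b).fst = 0 ∧ (x * b).snd ∈ p.T₀ := by
    intro b hb x hx
    refine ⟨by simp [hx.1], ?_⟩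
    rw [Unitization.snd_mul, hx.1, zero_smul, zero_add]
    exact add_mem (SMulMemClass.smul_mem _ hx.2) (mul_mem hx.2 hb)
  have hA : ∀ b ∈ p.setup.A, ∀ x : Unitization ℂ B,
      x.fst = 0 ∧ x.snd ∈ p.T₀ → (x * b).fst = 0 ∧ (x * b).snd ∈ p.T₀ := fun b hb =>
    closure_minimal (s := (p.A₁ : Set (Unitization ℂ B)))
      (fun b hb => hbase b (p.A_le_T₀ hb)) hcl hb
  have hX : ∀ b ∈ p.setup.X, ∀ x : Unitization ℂ B,
      x.fst = 0 ∧ x.snd ∈ p.T₀ → (x * b).fst = 0 ∧ (x * b).snd ∈ p.T₀ := fun b hb =>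
    closure_minimal (s := (p.X₁ : Set (Unitization ℂ B)))
      (fun b hb => hbase b (p.X_le_T₀ hb.2)) hcl hb
  have hadd : ∀ y z : Unitization ℂ B, (∀ x : Unitization ℂ B,
      x.fst = 0 ∧ x.snd ∈ p.T₀ → (x * y).fst = 0 ∧ (x * y).snd ∈ p.T₀) → (∀ x : Unitization ℂ B,
      x.fst = 0 ∧ x.snd ∈ p.T₀ → (x * z).fst = 0 ∧ (x * z).snd ∈ p.T₀) → ∀ x : Unitization ℂ B,
      x.fst = 0 ∧ x.snd ∈ p.T₀ → (x * (y + z)).fst = 0 ∧ (x * (y + z)).snd ∈ p.T₀ := by
    intro y z hy hz x hx
    rw [mul_add]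
    exact ⟨by rw [Unitization.fst_add, (hy x hx).1, (hz x hx).1, add_zero],
      add_mem (s := p.T₀) (hy x hx).2 (hz x hx).2⟩
  refine p.setup.T_induction (p := fun b => ∀ x : Unitization ℂ B,
      x.fst = 0 ∧ x.snd ∈ p.T₀ → (x * b).fst = 0 ∧ (x * b).snd ∈ p.T₀) hb ?_ hadd hcl
  intro k
  induction k with
  | zero => exact hA
  | succ k ih =>
    intro y hy
    refine Submodule.mul_induction_on hy ?_ hadd
    intro m hm n hn x hx
    rw [← mul_assoc]
    exact hX n hn _ (ih m hm x hx)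

end PreSetup

end Pool.Agent.H797Z
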