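import Mathlib

set_option autoImplicit false

namespace Pool.Agent.H797Z

universe u v w

/-- A C*-correspondence over the C*-algebra `A`, on the complex Banach space `X`: a right Hilbert
`A`-module structure on `X` (right action `act`, `A`-valued inner product `inner`, linear in the
second variable, inducing the norm of `X`) together with a star-homomorphism `phi` of `A` into the
adjointable operators on `X` (possibly degenerate). -/
structure Corr (A : Type u) (X : Type v) [NonUnitalCStarAlgebra A] [NormedAddCommGroup X]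
    [NormedSpace ℂ X] [CompleteSpace X] where
  act : X →ₗ[ℂ] A →ₗ[ℂ] X
  act_mul : ∀ ξ a b, act ξ (a * b) = act (act ξ a) b
  inner : X →ₗ⋆[ℂ] X →ₗ[ℂ] A
  inner_act : ∀ ξ η a, inner ξ (act η a) = inner ξ η * a
  star_inner : ∀ ξ η, star (inner ξ η) = inner η ξ
  inner_nonneg : ∀ ξ, ∃ b : A, inner ξ ξ = star b * b
  norm_sq : ∀ ξ, ‖ξ‖ ^ 2 = ‖inner ξ ξ‖
  phi : A →ₗ[ℂ] X →L[ℂ] X
  phi_mul : ∀ a b ξ, phi (a * b) ξ = phi a (phi b ξ)
  phi_star : ∀ a ξ η, inner (phi a ξ) η = inner ξ (phi (star a) η)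

variable {A : Type u} {X : Type v} [NonUnitalCStarAlgebra A] [NormedAddCommGroup X]
  [NormedSpace ℂ X] [CompleteSpace X]

/-- `(π, t)` is a Toeplitz representation of the correspondence `C` in the C*-algebra `B`. -/
def IsToeplitzRep (C : Corr A X) {B : Type w} [NonUnitalCStarAlgebra B] (π : A →⋆ₙₐ[ℂ] B)
    (t : X →ₗ[ℂ] B) : Prop :=
  (∀ a ξ, π a * t ξ = t (C.phi a ξ)) ∧ ∀ ξ η, star (t ξ) * t η = π (C.inner ξ η)

/-- `(π, t)` is the universal Toeplitz representation and `B` is the C*-algebra it generates: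
every Toeplitz representation factors through it. -/
def IsUniversalToeplitzRep (C : Corr A X) {B : Type w} [NonUnitalCStarAlgebra B]
    (π : A →⋆ₙₐ[ℂ] B) (t : X →ₗ[ℂ] B) : Prop :=
  IsToeplitzRep C π t ∧
    (NonUnitalStarAlgebra.adjoin ℂ (Set.range π ∪ Set.range t)).topologicalClosure = ⊤ ∧
    ∀ (B' : Type w) [NonUnitalCStarAlgebra B'] (π' : A →⋆ₙₐ[ℂ] B') (t' : X →ₗ[ℂ] B'),
      IsToeplitzRep C π' t' → ∃ ρ : B →⋆ₙₐ[ℂ] B', (∀ a, ρ (π a) = π' a) ∧ ∀ ξ, ρ (t ξ) = t' ξ

/-- The norm-closed (non-selfadjoint) subalgebra of `B` generated by all `π a` and `t ξ`. -/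
noncomputable def tensorAlgebra {A : Type u} {X : Type v} {B : Type w} [NonUnitalCStarAlgebra B]
    (π : A → B) (t : X → B) : NonUnitalSubalgebra ℂ B :=
  (NonUnitalAlgebra.adjoin ℂ (Set.range π ∪ Set.range t)).topologicalClosure

end Pool.Agent.H797Z
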