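import Mathlib

set_option autoImplicit false

namespace Pool.Agent.H797Z

open Filter Topology Complex
open scoped ComplexOrder InnerProductSpace

universe u

variable {B : Type u} [CStarAlgebra B]

theorem im_eq_zero_of_state (g : B →L[ℂ] ℂ) (hg : ∀ y, ‖g y‖ ≤ ‖y‖) (h1 : g 1 = 1) {h : B}
    (hh : IsSelfAdjoint h) : (g h).im = 0 := by
  have key : ∀ r : ℝ, (g h).im ^ 2 + 2 * (g h).im * r ≤ ‖h‖ ^ 2 := by
    intro r
    have e1 : star (h + ((r : ℂ) * I) • (1 : B)) * (h + ((r : ℂ) * I) • (1 : B))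
        = h * h + ((r ^ 2 : ℝ) : ℂ) • (1 : B) := by
      rw [star_add, hh.star_eq, star_smul, star_one]
      simp only [add_mul, mul_add, smul_mul_assoc, mul_smul_comm, one_mul, mul_one]
      have a1 : star ((r : ℂ) * I) = -((r : ℂ) * I) := by simp
      have a2 : ((r : ℂ) * I) * -((r : ℂ) * I) = ((r ^ 2 : ℝ) : ℂ) := by
        push_cast; linear_combination (-(r : ℂ) ^ 2) * I_mul_I
      rw [a1, smul_add, smul_smul, a2, neg_smul]
      abel
    have e2 : ‖h + ((r : ℂ) * I) • (1 : B)‖ ^ 2 ≤ ‖h‖ ^ 2 + r ^ 2 := by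
      rw [sq, ← CStarRing.norm_star_mul_self, e1]
      refine (norm_add_le _ _).trans (add_le_add ?_ ?_)
      · rw [sq]; exact norm_mul_le _ _
      · rw [norm_smul]
        have : ‖(1 : B)‖ ≤ 1 := by
          rcases subsingleton_or_nontrivial B with hB | hB
          · simp [Subsingleton.elim (1 : B) 0]
          · simp
        rw [Complex.norm_real, Real.norm_eq_abs, abs_of_nonneg (sq_nonneg r)]
        nlinarith [sq_nonneg r]
    have e3 : ‖g (h + ((r : ℂ) * I) • (1 : B))‖ ^ 2 ≤ ‖h‖ ^ 2 + r ^ 2 :=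
      (pow_le_pow_left₀ (norm_nonneg _) (hg _) 2).trans e2
    rw [map_add, map_smul, h1, Complex.sq_norm, Complex.normSq_apply] at e3
    simp at e3
    nlinarith [mul_self_nonneg (g h).re]
  by_contra hne
  have := key ((‖h‖ ^ 2 + 1) / (2 * (g h).im))
  have e : 2 * (g h).im * ((‖h‖ ^ 2 + 1) / (2 * (g h).im)) = ‖h‖ ^ 2 + 1 := by field_simp
  rw [e] at this
  nlinarith [sq_nonneg (g h).im]

variable [PartialOrder B] [StarOrderedRing B]

theorem nonneg_of_state (g : B →L[ℂ] ℂ) (hg : ∀ y, ‖g y‖ ≤ ‖y‖) (h1 : g 1 = 1) {y : B}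
    (hy : 0 ≤ y) : 0 ≤ g y := by
  have him := im_eq_zero_of_state g hg h1 (IsSelfAdjoint.of_nonneg hy)
  have h2 : y ≤ algebraMap ℝ B ‖y‖ := (IsSelfAdjoint.of_nonneg hy).le_algebraMap_norm_self
  have h3 : ‖algebraMap ℝ B ‖y‖ - y‖ ≤ ‖algebraMap ℝ B ‖y‖‖ :=
    CStarAlgebra.norm_le_norm_of_nonneg_of_le (sub_nonneg.2 h2) (sub_le_self _ hy)
  have h4 : ‖algebraMap ℝ B ‖y‖‖ ≤ ‖y‖ := by
    rcases subsingleton_or_nontrivial B with hB | hB
    · simp [Subsingleton.elim y 0]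
    · simp
  have h5 : g (algebraMap ℝ B ‖y‖) = ‖y‖ := by
    rw [Algebra.algebraMap_eq_smul_one, ← Complex.coe_smul, map_smul, h1]; simp
  have h6 := (hg _).trans (h3.trans h4)
  rw [map_sub, h5] at h6
  have h7 := (Complex.re_le_norm _).trans h6
  rw [Complex.le_def]
  simp at h7 ⊢
  exact ⟨h7, him.symm⟩

/-- the GNS map of a state -/
theorem exists_gns (g : B →L[ℂ] ℂ) (hpos : ∀ y, 0 ≤ y → 0 ≤ g y) :
    ∃ (H : Type u) (_ : NormedAddCommGroup H) (_ : InnerProductSpace ℂ H) (_ : CompleteSpace H)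
      (J : B →L[ℂ] H), (∀ y z, ⟪J y, J z⟫_ℂ = g (star y * z)) ∧
      ∀ y z, ‖J (y * z)‖ ≤ ‖y‖ * ‖J z‖ := by
  let f : B →ₚ[ℂ] ℂ := PositiveLinearMap.mk₀ (g : B →ₗ[ℂ] ℂ) hpos
  let J₀ : B →ₗ[ℂ] f.GNS :=
    (UniformSpace.Completion.toComplL : f.PreGNS →L[ℂ] f.GNS).toLinearMap ∘ₗ f.toPreGNS.toLinearMap
  have hJ₀ : ∀ y, J₀ y = (f.toPreGNS y : f.GNS) := fun y => rfl
  have hin : ∀ y z, ⟪J₀ y, J₀ z⟫_ℂ = g (star y * z) := by
    intro y z
    rw [hJ₀, hJ₀, UniformSpace.Completion.inner_coe]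
    rfl
  have hm : ∀ y z, ‖J₀ (y * z)‖ ≤ ‖y‖ * ‖J₀ z‖ := by
    intro y z
    rw [hJ₀, hJ₀, UniformSpace.Completion.norm_coe, UniformSpace.Completion.norm_coe]
    have hb : ‖f.leftMulMapPreGNS y‖ ≤ ‖y‖ := LinearMap.mkContinuous_norm_le _ (norm_nonneg _) _
    exact ((f.leftMulMapPreGNS y).le_opNorm (f.toPreGNS z)).trans
      (mul_le_mul_of_nonneg_right hb (norm_nonneg _))
  refine ⟨f.GNS, inferInstance, inferInstance, inferInstance,
    J₀.mkContinuous ‖J₀ 1‖ fun y => ?_, hin, hm⟩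
  have := hm y 1
  rwa [mul_one, mul_comm] at this

theorem exists_char (A : StarSubalgebra ℂ B) (hA : IsClosed (A : Set B)) {a : B} (ha : a ∈ A)
    (ha0 : a ≠ 0) (hsa : IsSelfAdjoint a)
    (hc : ∀ e ∈ A, ∀ c ∈ A, ∀ d ∈ A, a * e * (c * d - d * c) = 0) :
    ∃ g : B →L[ℂ] ℂ, (∀ y, ‖g y‖ ≤ ‖y‖) ∧ g 1 = 1 ∧ g a ≠ 0 ∧
      ∀ c ∈ A, ∀ d ∈ A, g (c * d) = g c * g d := by
  have : Nontrivial B := nontrivial_of_ne a 0 ha0
  have hcen : ∀ b ∈ A, (∀ e ∈ A, ∀ c ∈ A, ∀ d ∈ A, b * e * (c * d - d * c) = 0) →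
      ∀ c ∈ A, c * b = b * c := by
    intro b hb h c hc'
    have h1 := h c hc' (star c) (star_mem hc') (star b) (star_mem hb)
    have h2 := h 1 (one_mem _) (star c) (star_mem hc') (star b) (star_mem hb)
    have h3 : (b * c - c * b) * star (b * c - c * b) = 0 := by
      rw [star_sub, star_mul, star_mul, sub_mul, h1, mul_assoc c, ← mul_one b, star_mul, star_one,
        one_mul, h2]
      simp
    have h4 := (CStarRing.mul_star_self_eq_zero_iff _).1 h3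
    exact (sub_eq_zero.1 h4).symm
  let Z : StarSubalgebra ℂ B := A ⊓ StarSubalgebra.centralizer ℂ (A : Set B)
  have hZ : ∀ b, b ∈ Z ↔ b ∈ A ∧ ∀ c ∈ A, c * b = b * c := by
    intro b
    refine and_congr_right fun _ => ?_
    change b ∈ StarSubalgebra.centralizer ℂ (A : Set B) ↔ _
    rw [StarSubalgebra.mem_centralizer_iff]
    exact ⟨fun h c hc => (h c hc).1, fun h c hc => ⟨h c hc, h _ (star_mem hc)⟩⟩
  have hZc : IsClosed (Z : Set B) := hA.inter (Set.isClosed_centralizer _)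
  let : CommCStarAlgebra Z :=
    { (inferInstance : CStarAlgebra Z) with
      mul_comm := fun x y => Subtype.ext (((hZ y).1 y.2).2 x ((hZ x).1 x.2).1) }
  have haZ : ∀ c ∈ A, a * c ∈ Z := by
    intro c hc'
    refine (hZ _).2 ⟨mul_mem ha hc', hcen _ (mul_mem ha hc') ?_⟩
    intro e he c' hc'' d hd
    rw [mul_assoc a]
    exact hc _ (mul_mem hc' he) c' hc'' d hd
  have haZ' : a ∈ Z := by simpa using haZ 1 (one_mem _)
  obtain ⟨φ, hφ⟩ : ∃ φ : WeakDual.characterSpace ℂ Z, φ ⟨a, haZ'⟩ ≠ 0 := by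
    by_contra hcon
    push Not at hcon
    have : WeakDual.gelfandTransform ℂ Z ⟨a, haZ'⟩ = WeakDual.gelfandTransform ℂ Z 0 := by
      ext φ; simpa using hcon φ
    exact ha0 (congrArg Subtype.val ((gelfandTransform_bijective Z).1 this))
  have hφn : ∀ x : Z, ‖φ x‖ ≤ ‖x‖ := fun x => AlgHom.norm_apply_le_self φ x
  let p : Submodule ℂ B := Subalgebra.toSubmodule Z.toSubalgebra
  let f : StrongDual ℂ p := LinearMap.mkContinuous
    { toFun := fun x => φ ⟨x.1, x.2⟩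
      map_add' := fun x y => map_add φ ⟨x.1, x.2⟩ ⟨y.1, y.2⟩
      map_smul' := fun c x => map_smul φ c ⟨x.1, x.2⟩ } 1
    (fun x => by rw [one_mul]; exact hφn ⟨x.1, x.2⟩)
  have hfn : ‖f‖ ≤ 1 := LinearMap.mkContinuous_norm_le _ zero_le_one _
  obtain ⟨g, hg, hgn⟩ := exists_extension_norm_eq p f
  have hg' : ∀ x : Z, g x = φ x := fun x => hg ⟨x.1, x.2⟩
  have hgle : ∀ y, ‖g y‖ ≤ ‖y‖ := fun y => by
    have := g.le_opNorm y
    rw [hgn] at this
    exact this.trans (mul_le_of_le_one_left (norm_nonneg _) hfn)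
  have hg1 : g 1 = 1 := (hg' 1).trans (map_one φ)
  have hga : g a ≠ 0 := by rw [hg' ⟨a, haZ'⟩]; exact hφ
  refine ⟨g, hgle, hg1, hga, ?_⟩
  obtain ⟨H, _, _, _, J, hJ, -⟩ :=
    exists_gns g (fun y hy => nonneg_of_state g hgle hg1 hy)
  have hre : star (g a) = g a := by
    have := im_eq_zero_of_state g hgle hg1 hsa
    exact Complex.conj_eq_iff_im.2 this
  have hmul : ∀ x y : Z, g (x * y) = g x * g y := fun x y => by
    rw [hg' x, hg' y, ← map_mul φ]; exact hg' (x * y)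
  have hst : star (a - g a • (1 : B)) = a - g a • (1 : B) := by
    rw [star_sub, star_smul, hsa.star_eq, star_one, hre]
  have h0 : J (a - g a • (1 : B)) = 0 := by
    rw [← inner_self_eq_zero (𝕜 := ℂ), hJ, hst]
    have hm : a - g a • (1 : B) ∈ Z := sub_mem haZ' (SMulMemClass.smul_mem _ (one_mem _))
    rw [hmul ⟨_, hm⟩ ⟨_, hm⟩]
    simp [hg1]
  have hdom : ∀ y, g (a * y) = g a * g y := by
    intro y
    have := hJ (a - g a • (1 : B)) y
    rw [h0, inner_zero_left, hst, sub_mul, smul_mul_assoc, one_mul, map_sub, map_smul] at this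
    exact (sub_eq_zero.1 this.symm)
  intro c hc' d hd
  have e1 : a * (a * (c * d)) = (a * c) * (a * d) := by
    have := ((hZ a).1 haZ').2 c hc'
    rw [mul_assoc a c, ← mul_assoc c a, this, mul_assoc a c]
  have e2 := hmul ⟨_, haZ c hc'⟩ ⟨_, haZ d hd⟩
  simp only at e2
  rw [← e1, hdom, hdom, hdom, hdom] at e2
  have : g a * g a * (g (c * d) - g c * g d) = 0 := by linear_combination e2
  exact sub_eq_zero.1 ((mul_eq_zero.1 this).resolve_left (mul_ne_zero hga hga))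

end Pool.Agent.H797Z
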