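import Mathlib
import Pool.Agent.H797Z.Gauge
import Pool.Agent.H797Z.State

set_option autoImplicit false

namespace Pool.Agent.H797Z

open Filter Topology Complex
open scoped ComplexOrder InnerProductSpace

universe u

variable {B : Type u} [CStarAlgebra B]

/-- The Fock space of a character of the coefficient algebra. -/
structure Fock (s : Setup B) (H : Type u) [NormedAddCommGroup H] [InnerProductSpace ℂ H] where
  ψ : B →L[ℂ] ℂ
  J : B →L[ℂ] H
  inner_J : ∀ y z, ⟪J y, J z⟫_ℂ = ψ (star y * z)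
  norm_J_mul : ∀ y z, ‖J (y * z)‖ ≤ ‖y‖ * ‖J z‖
  ψ_one : ψ 1 = 1
  ψ_mul : ∀ c ∈ s.A, ∀ d ∈ s.A, ψ (c * d) = ψ c * ψ d
  orth : ∀ j k, j ≠ k → ∀ y ∈ s.V j, ∀ z ∈ s.V k, ψ (star y * z) = 0

namespace Fock

variable {s : Setup B} {H : Type u} [NormedAddCommGroup H] [InnerProductSpace ℂ H] (F : Fock s H)

theorem norm_J_one : ‖F.J 1‖ = 1 := by
  have := F.inner_J 1 1
  rw [star_one, one_mul, F.ψ_one, inner_self_eq_norm_sq_to_K] at this
  have h : ‖F.J 1‖ ^ 2 = 1 := by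
    apply Complex.ofReal_injective
    push_cast
    exact this
  nlinarith [norm_nonneg (F.J 1)]

theorem norm_J_le (y : B) : ‖F.J y‖ ≤ ‖y‖ := by
  simpa [F.norm_J_one] using F.norm_J_mul y 1

theorem J_mul_A (y : B) {c : B} (hc : c ∈ s.A) : F.J (y * c) = F.ψ c • F.J y := by
  have hm : c - F.ψ c • (1 : B) ∈ s.A := sub_mem hc (SMulMemClass.smul_mem _ (one_mem _))
  have h0 : F.J (c - F.ψ c • (1 : B)) = 0 := by
    rw [← inner_self_eq_zero (𝕜 := ℂ), F.inner_J, F.ψ_mul _ (star_mem hm) _ hm]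
    simp [F.ψ_one]
  have h1 := F.norm_J_mul y (c - F.ψ c • (1 : B))
  rw [h0, norm_zero, mul_zero, norm_le_zero_iff, mul_sub, mul_smul_comm, mul_one, map_sub,
    map_smul] at h1
  exact sub_eq_zero.1 h1

theorem localize [PartialOrder B] [StarOrderedRing B] {η : B} (hη : η ∈ s.X) {r : ℝ}
    (hr : ‖F.J η‖ < r) : ∃ c ∈ s.A, F.ψ c = 1 ∧ ‖η * c‖ ≤ r := by
  have hr0 : 0 < r := (norm_nonneg _).trans_lt hr
  set b := star η * η with hb
  have hbA : b ∈ s.A := s.star_mul_mem η hη η hη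
  have hb0 : 0 ≤ b := star_mul_self_nonneg η
  have hbsa : IsSelfAdjoint b := .of_nonneg hb0
  set m := ‖F.J η‖ ^ 2 with hm
  have hψb : F.ψ b = (m : ℂ) := by
    rw [hb, ← F.inner_J, inner_self_eq_norm_sq_to_K, hm]; norm_cast
  set β := r ^ 2 with hβ
  have hβ0 : 0 < β := by positivity
  have hmβ : m ≤ β := pow_le_pow_left₀ (norm_nonneg _) hr.le 2
  have hm0 : 0 ≤ m := by positivity
  have hsp : ∀ x ∈ spectrum ℝ b, 0 ≤ x := fun x hx => spectrum_nonneg_of_nonneg hb0 hx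
  have hcont : ContinuousOn (fun x : ℝ => 2 * β / (x + β)) (spectrum ℝ b) :=
    ContinuousOn.div (by fun_prop) (by fun_prop) fun x hx => by have := hsp x hx; positivity
  set c₀ := cfc (fun x : ℝ => 2 * β / (x + β)) b with hc₀
  have hc₀A : c₀ ∈ s.A := by
    have := s.A_closed
    exact cfc_mem (𝕜' := ℂ) _ hbA
  have e1 : c₀ * (b + (β : ℂ) • (1 : B)) = ((2 * β : ℝ) : ℂ) • (1 : B) := by
    have e : b + (β : ℂ) • (1 : B) = cfc (fun x : ℝ => x + β) b := by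
      rw [cfc_add b _ _, cfc_id' ℝ b, cfc_const β b, Algebra.algebraMap_eq_smul_one,
        Complex.coe_smul]
    rw [e, hc₀, ← cfc_mul _ _ b hcont (by fun_prop), Complex.coe_smul,
      ← Algebra.algebraMap_eq_smul_one, ← cfc_const (2 * β) b]
    refine cfc_congr fun x hx => ?_
    have := hsp x hx
    field_simp
  have e2 : F.ψ c₀ = ((2 * β / (m + β) : ℝ) : ℂ) := by
    have := congrArg F.ψ e1
    rw [F.ψ_mul _ hc₀A _ (add_mem hbA (SMulMemClass.smul_mem _ (one_mem _))), map_add, map_smul,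
      map_smul, F.ψ_one, hψb] at this
    have hne : ((m : ℂ) + β) ≠ 0 := by
      have : (m + β : ℝ) ≠ 0 := by positivity
      exact_mod_cast this
    simp only [smul_eq_mul, mul_one] at this
    push_cast at this ⊢
    rw [eq_div_iff hne, this]
  have e3 : ‖η * c₀‖ ≤ r := by
    have hsa : star c₀ = c₀ := (cfc_predicate (R := ℝ) _ b).star_eq
    have e : star (η * c₀) * (η * c₀)
        = cfc (fun x : ℝ => 2 * β / (x + β) * x * (2 * β / (x + β))) b := by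
      rw [cfc_mul (fun x : ℝ => 2 * β / (x + β) * x) _ b (hcont.mul continuousOn_id) hcont, cfc_mul _ _ b hcont (by fun_prop),
        cfc_id' ℝ b, ← hc₀, star_mul, hsa, hb]
      simp only [mul_assoc]
    have e' : ‖η * c₀‖ * ‖η * c₀‖ ≤ β := by
      rw [← CStarRing.norm_star_mul_self, e]
      refine norm_cfc_le hβ0.le fun x hx => ?_
      have hx0 := hsp x hx
      rw [Real.norm_eq_abs, abs_of_nonneg (by positivity)]
      have : 2 * β / (x + β) * x * (2 * β / (x + β)) = (4 * β ^ 2 * x) / (x + β) ^ 2 := by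
        field_simp; ring
      rw [this, div_le_iff₀ (by positivity)]
      nlinarith [mul_nonneg hβ0.le (sq_nonneg (x - β))]
    nlinarith [norm_nonneg (η * c₀)]
  have hκ : 1 ≤ 2 * β / (m + β) := by
    rw [le_div_iff₀ (by positivity)]; linarith
  set κ := 2 * β / (m + β)
  have hκ0 : (κ : ℂ) ≠ 0 := by
    have : κ ≠ 0 := by positivity
    exact_mod_cast this
  refine ⟨(κ : ℂ)⁻¹ • c₀, SMulMemClass.smul_mem _ hc₀A, ?_, ?_⟩
  · rw [map_smul, e2, smul_eq_mul, inv_mul_cancel₀ hκ0]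
  · rw [mul_smul_comm, norm_smul, norm_inv, Complex.norm_real, Real.norm_eq_abs,
      abs_of_pos (by positivity)]
    exact (mul_le_of_le_one_left (norm_nonneg _) (inv_le_one_of_one_le₀ hκ)).trans e3

theorem norm_J_mul_eigen {ξ : B} (hξ : ξ ∈ s.X)
    (h : ∀ c ∈ s.A, F.ψ (star ξ * (c * ξ)) = F.ψ c * (‖F.J ξ‖ : ℂ) ^ 2) {y : B} (hy : y ∈ s.T) :
    ‖F.J (y * ξ)‖ = ‖F.J ξ‖ * ‖F.J y‖ := by
  have key : ∀ y ∈ s.T, ∀ z ∈ s.T,
      F.ψ (star (y * ξ) * (z * ξ)) = F.ψ (star y * z) * (‖F.J ξ‖ : ℂ) ^ 2 := by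
    intro y hy z hz
    refine s.T_induction₂
      (p := fun y z => F.ψ (star (y * ξ) * (z * ξ)) = F.ψ (star y * z) * (‖F.J ξ‖ : ℂ) ^ 2)
      hy hz ?_ ?_ ?_ ?_ ?_
    · intro j y hy k z hz
      by_cases hjk : j = k
      · subst hjk
        rw [← h _ (s.star_mul_V j y hy z hz), star_mul]
        simp only [mul_assoc]
      · rw [F.orth j k hjk y hy z hz, F.orth (j + 1) (k + 1) (by omega) _
          (Submodule.mul_mem_mul hy hξ) _ (Submodule.mul_mem_mul hz hξ), zero_mul]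
    · intro a b c ha hb
      rw [add_mul, star_add, add_mul, map_add, ha, hb, star_add, add_mul, map_add, add_mul]
    · intro a b c ha hb
      rw [add_mul, mul_add, map_add, ha, hb, mul_add, map_add, add_mul]
    · intro z
      exact isClosed_eq (by fun_prop) (by fun_prop)
    · intro y
      exact isClosed_eq (by fun_prop) (by fun_prop)
  have := key y hy y hy
  rw [← F.inner_J, ← F.inner_J, inner_self_eq_norm_sq_to_K, inner_self_eq_norm_sq_to_K] at this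
  have h2 : ‖F.J (y * ξ)‖ ^ 2 = ‖F.J y‖ ^ 2 * ‖F.J ξ‖ ^ 2 := by
    apply Complex.ofReal_injective
    push_cast
    exact this
  have h3 : ‖F.J (y * ξ)‖ ^ 2 = (‖F.J ξ‖ * ‖F.J y‖) ^ 2 := by rw [h2]; ring
  exact (pow_left_inj₀ (norm_nonneg _) (by positivity) two_ne_zero).1 h3

theorem orth_mul {ξ : B} (hξ : ξ ∈ s.X)
    (h : ∀ y ∈ s.T, ‖F.J (y * ξ)‖ = ‖F.J ξ‖ * ‖F.J y‖) {u : B} (hu : u ∈ s.T) {n : ℕ}
    (hn : ∀ k < n, ∀ q ∈ s.V k, ⟪F.J q, F.J u⟫_ℂ = 0) :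
    ∀ k < n + 1, ∀ q ∈ s.V k, ⟪F.J q, F.J (u * ξ)⟫_ℂ = 0 := by
  intro k hk q hq
  rcases k with _ | k
  · refine s.T_induction (p := fun u => ⟪F.J q, F.J (u * ξ)⟫_ℂ = 0) hu ?_ ?_ ?_
    · intro j y hy
      rw [F.inner_J]
      exact F.orth 0 (j + 1) (by omega) q hq _ (Submodule.mul_mem_mul hy hξ)
    · intro a b ha hb
      rw [add_mul, map_add, inner_add_right, ha, hb, add_zero]
    · exact isClosed_eq (by fun_prop) (by fun_prop)
  have hdec : ∀ y ∈ s.P, ∃ y' ∈ s.V k, (∀ q' ∈ s.V k, ⟪F.J q', F.J y⟫_ℂ = ⟪F.J q', F.J y'⟫_ℂ) ∧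
      ⟪F.J q, F.J (y * ξ)⟫_ℂ = ⟪F.J q, F.J (y' * ξ)⟫_ℂ := by
    intro y hy
    refine s.P_induction (p := fun y => ∃ y' ∈ s.V k,
      (∀ q' ∈ s.V k, ⟪F.J q', F.J y⟫_ℂ = ⟪F.J q', F.J y'⟫_ℂ) ∧
      ⟪F.J q, F.J (y * ξ)⟫_ℂ = ⟪F.J q, F.J (y' * ξ)⟫_ℂ) hy ?_ ?_
    · intro j y hy
      by_cases hjk : j = k
      · subst hjk
        exact ⟨y, hy, fun _ _ => rfl, rfl⟩
      · refine ⟨0, zero_mem _, fun q' hq' => ?_, ?_⟩
        · rw [map_zero, inner_zero_right, F.inner_J]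
          exact F.orth k j (Ne.symm hjk) q' hq' y hy
        · rw [zero_mul, map_zero, inner_zero_right, F.inner_J]
          exact F.orth (k + 1) (j + 1) (by omega) q hq _ (Submodule.mul_mem_mul hy hξ)
    · rintro a b ⟨a', ha', ha1, ha2⟩ ⟨b', hb', hb1, hb2⟩
      refine ⟨a' + b', add_mem ha' hb', fun q' hq' => ?_, ?_⟩
      · rw [map_add, map_add, inner_add_right, inner_add_right, ha1 q' hq', hb1 q' hq']
      · rw [add_mul, add_mul, map_add, map_add, inner_add_right, inner_add_right, ha2, hb2]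
  have key : ∀ ε > 0, ‖⟪F.J q, F.J (u * ξ)⟫_ℂ‖ ≤ (2 * ‖F.J q‖ * ‖F.J ξ‖) * ε := by
    intro ε hε
    obtain ⟨y, hy, hyu⟩ := Metric.mem_closure_iff.1 hu ε hε
    obtain ⟨y', hy', h1, h2⟩ := hdec y hy
    rw [dist_eq_norm] at hyu
    have hJ : ‖F.J (u - y)‖ ≤ ε := (F.norm_J_le _).trans hyu.le
    have h3 : ‖F.J y'‖ ≤ ε := by
      have e : ⟪F.J y', F.J y'⟫_ℂ = -⟪F.J y', F.J (u - y)⟫_ℂ := by
        rw [map_sub, inner_sub_right, hn k (by omega) y' hy', h1 y' hy']; simp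
      have e2 : ‖F.J y'‖ ^ 2 ≤ ‖F.J y'‖ * ε := by
        have := congrArg norm e
        rw [inner_self_eq_norm_sq_to_K, norm_neg] at this
        simp only [norm_pow, coe_algebraMap, norm_real, norm_norm] at this
        rw [this]
        exact (norm_inner_le_norm _ _).trans (mul_le_mul_of_nonneg_left hJ (norm_nonneg _))
      nlinarith [norm_nonneg (F.J y')]
    have e : ⟪F.J q, F.J (u * ξ)⟫_ℂ
        = ⟪F.J q, F.J ((u - y) * ξ)⟫_ℂ + ⟪F.J q, F.J (y' * ξ)⟫_ℂ := by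
      rw [← h2, ← inner_add_right, ← map_add, ← add_mul, sub_add_cancel]
    rw [e]
    have a1 : ‖F.J ((u - y) * ξ)‖ ≤ ‖F.J ξ‖ * ε := by
      rw [h _ (sub_mem hu (s.P_le_T hy))]; gcongr
    have a2 : ‖F.J (y' * ξ)‖ ≤ ‖F.J ξ‖ * ε := by
      rw [h _ (s.V_le_T k hy')]; gcongr
    calc _ ≤ ‖F.J q‖ * (‖F.J ξ‖ * ε) + ‖F.J q‖ * (‖F.J ξ‖ * ε) :=
          (norm_add_le _ _).trans (add_le_add
            ((norm_inner_le_norm _ _).trans (mul_le_mul_of_nonneg_left a1 (norm_nonneg _)))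
            ((norm_inner_le_norm _ _).trans (mul_le_mul_of_nonneg_left a2 (norm_nonneg _))))
      _ = _ := by ring
  have ht : Tendsto (fun ε : ℝ => (2 * ‖F.J q‖ * ‖F.J ξ‖) * ε) (𝓝[>] 0) (𝓝 0) := by
    have : Tendsto (fun ε : ℝ => (2 * ‖F.J q‖ * ‖F.J ξ‖) * ε) (𝓝 0)
        (𝓝 ((2 * ‖F.J q‖ * ‖F.J ξ‖) * 0)) := (continuous_const.mul continuous_id).tendsto 0
    rw [mul_zero] at this
    exact this.mono_left nhdsWithin_le_nhds
  exact norm_le_zero_iff.1 (ge_of_tendsto ht (eventually_mem_nhdsWithin.mono key))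

/-- an element divisible by all `ξ - l` is null -/
theorem null_of_divisible {ξ : B} (hξ : ξ ∈ s.X) (hξ0 : F.J ξ ≠ 0)
    (h : ∀ y ∈ s.T, ‖F.J (y * ξ)‖ = ‖F.J ξ‖ * ‖F.J y‖) {D : B} (hD : D ∈ s.T)
    (hdiv : ∀ l : ℝ, ∃ u ∈ s.T, D = u * (ξ - (l : ℂ) • 1)) : F.J D = 0 := by
  choose u hu hDu using hdiv
  set μ := ‖F.J ξ‖ with hμ
  have hμ0 : 0 < μ := norm_pos_iff.2 hξ0
  have e : ∀ l : ℝ, F.J D = F.J (u l * ξ) - (l : ℂ) • F.J (u l) := by
    intro l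
    rw [hDu l, mul_sub, mul_smul_comm, mul_one, map_sub, map_smul]
  have hb : ∀ l : ℝ, 0 < l → l ≤ μ / 2 → ‖F.J (u l)‖ ≤ 2 * ‖F.J D‖ / μ := by
    intro l hl0 hl
    have h1 := norm_sub_norm_le (F.J (u l * ξ)) ((l : ℂ) • F.J (u l))
    rw [← e, h _ (hu l), norm_smul, Complex.norm_real, Real.norm_eq_abs, abs_of_pos hl0] at h1
    rw [le_div_iff₀ hμ0]
    nlinarith [norm_nonneg (F.J (u l))]
  have step : ∀ n, (∀ l : ℝ, 0 < l → l ≤ μ / 2 → ∀ k < n, ∀ q ∈ s.V k, ⟪F.J q, F.J (u l)⟫_ℂ = 0) →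
      ∀ k < n + 1, ∀ q ∈ s.V k, ⟪F.J q, F.J D⟫_ℂ = 0 := by
    intro n hn k hk q hq
    have key : ∀ l : ℝ, 0 < l → l ≤ μ / 2 →
        ‖⟪F.J q, F.J D⟫_ℂ‖ ≤ (‖F.J q‖ * (2 * ‖F.J D‖ / μ)) * l := by
      intro l hl0 hl
      conv_lhs => rw [e l]
      rw [inner_sub_right, F.orth_mul hξ h (hu l) (hn l hl0 hl) k hk q hq, zero_sub, norm_neg,
        inner_smul_right, norm_mul, Complex.norm_real, Real.norm_eq_abs, abs_of_pos hl0, mul_comm]
      refine mul_le_mul_of_nonneg_right ?_ hl0.le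
      exact (norm_inner_le_norm _ _).trans
        (mul_le_mul_of_nonneg_left (hb l hl0 hl) (norm_nonneg _))
    have ht : Tendsto (fun ε : ℝ => (‖F.J q‖ * (2 * ‖F.J D‖ / μ)) * ε) (𝓝[>] 0) (𝓝 0) := by
      have : Tendsto (fun ε : ℝ => (‖F.J q‖ * (2 * ‖F.J D‖ / μ)) * ε) (𝓝 0)
          (𝓝 ((‖F.J q‖ * (2 * ‖F.J D‖ / μ)) * 0)) := (continuous_const.mul continuous_id).tendsto 0
      rw [mul_zero] at this
      exact this.mono_left nhdsWithin_le_nhds
    refine norm_le_zero_iff.1 (ge_of_tendsto ht ?_)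
    filter_upwards [Ioc_mem_nhdsGT (half_pos hμ0)] with l hl using key l hl.1 hl.2
  have hind : ∀ n, ∀ l : ℝ, 0 < l → l ≤ μ / 2 → ∀ k < n, ∀ q ∈ s.V k,
      ⟪F.J q, F.J (u l)⟫_ℂ = 0 := by
    intro n
    induction n with
    | zero => intro l _ _ k hk; omega
    | succ n ih =>
      intro l hl0 hl k hk q hq
      have h1 := step n ih k hk q hq
      rw [e l, inner_sub_right, F.orth_mul hξ h (hu l) (ih l hl0 hl) k hk q hq, zero_sub,
        neg_eq_zero, inner_smul_right] at h1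
      exact (mul_eq_zero.1 h1).resolve_left (by exact_mod_cast hl0.ne')
  have hall : ⟪F.J D, F.J D⟫_ℂ = 0 := by
    refine s.T_induction (p := fun y => ⟪F.J y, F.J D⟫_ℂ = 0) hD ?_ ?_ ?_
    · intro k q hq
      exact step k (hind k) k (by omega) q hq
    · intro a b ha hb
      rw [map_add, inner_add_left, ha, hb, add_zero]
    · exact isClosed_eq (by fun_prop) (by fun_prop)
  exact inner_self_eq_zero.1 hall

end Fock

end Pool.Agent.H797Z
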