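import Mathlib
import Pool.Agent.H797Z.Bisect
import Pool.Agent.H797Z.Fock

set_option autoImplicit false

namespace Pool.Agent.H797Z

open Filter Topology Complex
open scoped ComplexOrder InnerProductSpace

universe u

variable {B : Type u} [CStarAlgebra B]

namespace Fock

variable {s : Setup B} {H : Type u} [NormedAddCommGroup H] [InnerProductSpace ℂ H] (F : Fock s H)

theorem null_of_symm [CompleteSpace H] [PartialOrder B] [StarOrderedRing B] (D : B → B) (C : ℝ)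
    (hC : 0 < C) (hadd : ∀ y ∈ s.T, ∀ z ∈ s.T, D (y + z) = D y + D z)
    (hsmul : ∀ (c : ℂ), ∀ y ∈ s.T, D (c • y) = c • D y)
    (hbd : ∀ y ∈ s.T, ‖D y‖ ≤ C * ‖y‖) (hT : ∀ y ∈ s.T, D y ∈ s.T)
    (hr : ∀ y ∈ s.T, ∀ c ∈ s.A, D (y * c) = D y * c)
    (hl : ∀ y ∈ s.T, ∀ c ∈ s.A, D (c * y) = D y * c)
    (hdiv : ∀ y ∈ s.T, ∀ l : ℝ, ∃ u ∈ s.T, D y = u * (y - (l : ℂ) • 1))
    {t : B} (ht : t ∈ s.X) : F.J (D t) = 0 := by
  have hsub : ∀ y ∈ s.T, ∀ z ∈ s.T, D (y - z) = D y - D z := by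
    intro y hy z hz
    have := hadd (y - z) (sub_mem hy hz) z hz
    rw [sub_add_cancel] at this
    rw [this, add_sub_cancel_right]
  have hD0 : D 0 = 0 := by simpa using hsmul 0 0 (zero_mem _)
  have hcont : ContinuousOn D s.T := by
    refine LipschitzOnWith.continuousOn (K := ⟨C, hC.le⟩) ?_
    refine LipschitzOnWith.of_dist_le_mul fun y hy z hz => ?_
    rw [dist_eq_norm, dist_eq_norm, ← hsub y hy z hz]
    exact hbd _ (sub_mem hy hz)
  have hnull : ∀ η ∈ s.X, F.J η = 0 → F.J (D η) = 0 := by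
    intro η hη h0
    have key : ∀ r > 0, ‖F.J (D η)‖ ≤ C * r := by
      intro r hr0
      obtain ⟨c, hc, hc1, hcn⟩ := F.localize hη (r := r) (by rwa [h0, norm_zero])
      have e : F.J (D η) = F.J (D (η * c)) := by
        rw [hr η (s.X_le_T hη) c hc, F.J_mul_A _ hc, hc1, one_smul]
      rw [e]
      exact (F.norm_J_le _).trans ((hbd _ (s.X_le_T (s.mul_right c hc η hη))).trans
        (mul_le_mul_of_nonneg_left hcn hC.le))
    have ht : Tendsto (fun ε : ℝ => C * ε) (𝓝[>] 0) (𝓝 0) := by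
      have : Tendsto (fun ε : ℝ => C * ε) (𝓝 0) (𝓝 (C * 0)) :=
        (continuous_const.mul continuous_id).tendsto 0
      rw [mul_zero] at this
      exact this.mono_left nhdsWithin_le_nhds
    exact norm_le_zero_iff.1 (ge_of_tendsto ht (eventually_mem_nhdsWithin.mono key))
  let N : Submodule ℂ B :=
    { carrier := {η | η ∈ s.X ∧ F.J (D η) = 0}
      add_mem' := fun {a b} ha hb => ⟨add_mem ha.1 hb.1, by
        rw [hadd a (s.X_le_T ha.1) b (s.X_le_T hb.1), map_add, ha.2, hb.2, add_zero]⟩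
      zero_mem' := ⟨zero_mem _, by rw [hD0, map_zero]⟩
      smul_mem' := fun c a ha => ⟨s.X.smul_mem c ha.1, by
        rw [hsmul c a (s.X_le_T ha.1), map_smul, ha.2, smul_zero]⟩ }
  have hN : ∀ η, η ∈ N ↔ η ∈ s.X ∧ F.J (D η) = 0 := fun η => Iff.rfl
  have hNc : IsClosed (N : Set B) :=
    s.X_closed.isClosed_eq (f := fun η => F.J (D η)) (g := fun _ => 0)
      (F.J.continuous.comp_continuousOn (hcont.mono fun η hη => s.X_le_T hη)) continuousOn_const
  have : CompleteSpace N := hNc.completeSpace_coe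
  let K : Submodule ℂ H := N.map (F.J : B →ₗ[ℂ] H)
  have hKc : IsClosed (K : Set H) := by
    let f : NormedAddGroupHom N H :=
      ((F.J : B →ₗ[ℂ] H).toAddMonoidHom.comp N.subtype.toAddMonoidHom).mkNormedAddGroupHom 1
        fun v => by rw [one_mul]; exact F.norm_J_le v
    have hf : f.SurjectiveOnWith K.toAddSubgroup 2 := by
      rintro _ ⟨η, hη, rfl⟩
      by_cases h0 : F.J η = 0
      · refine ⟨0, ?_, by simp⟩
        rw [map_zero]; exact h0.symm
      · have hpos : 0 < ‖F.J η‖ := norm_pos_iff.2 h0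
        obtain ⟨c, hc, hc1, hcn⟩ := F.localize hη.1 (r := 2 * ‖F.J η‖) (by linarith)
        refine ⟨⟨η * c, s.mul_right c hc η hη.1, ?_⟩, ?_, hcn⟩
        · rw [hr η (s.X_le_T hη.1) c hc, F.J_mul_A _ hc, hη.2, smul_zero]
        · change F.J (η * c) = F.J η
          rw [F.J_mul_A _ hc, hc1, one_smul]
    have hf' := controlled_closure_of_complete two_pos one_pos hf
    refine isClosed_of_closure_subset fun h hh => ?_
    obtain ⟨g, hg, -⟩ := hf' h hh
    exact ⟨g, g.2, hg⟩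
  have : CompleteSpace K := hKc.completeSpace_coe
  obtain ⟨_, ⟨n, hn, rfl⟩, v, hv, hnv⟩ := K.exists_add_mem_mem_orthogonal (F.J t)
  have hξ : t - n ∈ s.X := sub_mem ht hn.1
  have hJξ : F.J (t - n) = v := by
    rw [map_sub, hnv]; exact add_sub_cancel_left _ _
  have hDξ : F.J (D (t - n)) = F.J (D t) := by
    rw [hsub t (s.X_le_T ht) n (s.X_le_T hn.1), map_sub, hn.2, sub_zero]
  set ξ := t - n
  rw [← hDξ]
  by_cases h0 : F.J ξ = 0
  · exact hnull ξ hξ h0
  have heig : ∀ c ∈ s.A, F.ψ (star ξ * (c * ξ)) = F.ψ c * (‖F.J ξ‖ : ℂ) ^ 2 := by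
    intro c hc
    have hm : c * ξ - F.ψ c • ξ ∈ N := by
      refine ⟨sub_mem (s.mul_left c hc ξ hξ) (s.X.smul_mem _ hξ), ?_⟩
      rw [hsub _ (s.X_le_T (s.mul_left c hc ξ hξ)) _ (s.X_le_T (s.X.smul_mem _ hξ)),
        hl ξ (s.X_le_T hξ) c hc, hsmul _ ξ (s.X_le_T hξ), map_sub, F.J_mul_A _ hc, map_smul,
        sub_self]
    have h1 : ⟪v, F.J (c * ξ - F.ψ c • ξ)⟫_ℂ = 0 :=
      Submodule.inner_left_of_mem_orthogonal (K := K) ⟨_, hm, rfl⟩ hv
    rw [map_sub, map_smul, ← hJξ, inner_sub_right, inner_smul_right, F.inner_J,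
      inner_self_eq_norm_sq_to_K] at h1
    exact sub_eq_zero.1 h1
  exact F.null_of_divisible hξ h0 (fun y hy => F.norm_J_mul_eigen hξ heig hy)
    (hT ξ (s.X_le_T hξ)) (hdiv ξ (s.X_le_T hξ))

end Fock

namespace Setup

variable (s : Setup B)

theorem eq_zero_of_symm (D : B → B) (C : ℝ)
    (hC : 0 < C) (hadd : ∀ y ∈ s.T, ∀ z ∈ s.T, D (y + z) = D y + D z)
    (hsmul : ∀ (c : ℂ), ∀ y ∈ s.T, D (c • y) = c • D y)
    (hbd : ∀ y ∈ s.T, ‖D y‖ ≤ C * ‖y‖) (hT : ∀ y ∈ s.T, D y ∈ s.T)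
    (hr : ∀ y ∈ s.T, ∀ c ∈ s.A, D (y * c) = D y * c)
    (hl : ∀ y ∈ s.T, ∀ c ∈ s.A, D (c * y) = D y * c)
    (hdiv : ∀ y ∈ s.T, ∀ l : ℝ, ∃ u ∈ s.T, D y = u * (y - (l : ℂ) • 1))
    {t : B} (ht : t ∈ s.X) : D t = 0 := by
  let _ := CStarAlgebra.spectralOrder B
  have _ := CStarAlgebra.spectralOrderedRing B
  have htT := s.X_le_T ht
  by_contra hne
  have hcomm : ∀ y ∈ s.T, ∀ c ∈ s.A, ∀ d ∈ s.A, D y * (c * d - d * c) = 0 := by
    intro y hy c hc d hd
    have e1 : D (y * c * d) = D y * c * d := by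
      rw [hr _ (s.T_mul hy (s.A_le_T hc)) d hd, hr y hy c hc]
    have e2 : D (y * c * d) = D y * d * c := by
      rw [hr _ (s.T_mul hy (s.A_le_T hc)) d hd, ← hl _ (s.T_mul hy (s.A_le_T hc)) d hd,
        ← mul_assoc, hr _ (s.T_mul (s.A_le_T hd) hy) c hc, hl y hy d hd]
    rw [mul_sub, ← mul_assoc, ← mul_assoc, ← e1, ← e2, sub_self]
  set a := s.E (star (D t) * D t) with ha
  have haA : a ∈ s.A := s.E_star_mul_mem (hT t htT) (hT t htT)
  have ha0 : a ≠ 0 := fun h => hne (s.E_faithful (hT t htT) h)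
  have hasa : IsSelfAdjoint a := .of_nonneg (s.E_nonneg (star_mul_self_nonneg _))
  obtain ⟨g, hg, hg1, hga, hgm⟩ := exists_char s.A s.A_closed haA ha0 hasa (by
    intro e he c hc d hd
    rw [ha, ← s.E_mul_A _ he, ← s.E_mul_A _ (sub_mem (mul_mem hc hd) (mul_mem hd hc)),
      mul_assoc (star (D t)), ← hr t htT e he, mul_assoc,
      hcomm _ (s.T_mul htT (s.A_le_T he)) c hc d hd, mul_zero, map_zero])
  obtain ⟨H, _, _, _, J, hJ, hJm⟩ := exists_gns (g.comp s.E)
    (fun y hy => nonneg_of_state g hg hg1 (s.E_nonneg hy))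
  let F : Fock s H :=
    { ψ := g.comp s.E
      J := J
      inner_J := hJ
      norm_J_mul := hJm
      ψ_one := by simp [s.E_A (one_mem _), hg1]
      ψ_mul := fun c hc d hd => by
        simp [s.E_A hc, s.E_A hd, s.E_A (mul_mem hc hd), hgm c hc d hd]
      orth := fun j k hjk y hy z hz => by simp [s.E_V_ne hjk hy hz] }
  have h0 : J (D t) = 0 := F.null_of_symm D C hC hadd hsmul hbd hT hr hl hdiv ht
  have := hJ (D t) (D t)
  rw [h0, inner_zero_left] at this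
  exact hga this.symm

/-- a bounded local left multiplier of the unital tensor algebra -/
structure IsLocal (S : B → B) : Prop where
  add : ∀ y ∈ s.T, ∀ z ∈ s.T, S (y + z) = S y + S z
  smul : ∀ (c : ℂ), ∀ y ∈ s.T, S (c • y) = c • S y
  bound : ∃ C, 0 < C ∧ ∀ y ∈ s.T, ‖S y‖ ≤ C * ‖y‖
  loc : ∀ y ∈ s.T, ∃ w ∈ s.T, S y = w * y

variable {s}

theorem IsLocal.sub {S : B → B} (h : s.IsLocal S) :
    ∀ y ∈ s.T, ∀ z ∈ s.T, S (y - z) = S y - S z := by
  intro y hy z hz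
  have := h.add (y - z) (sub_mem hy hz) z hz
  rw [sub_add_cancel] at this
  rw [this, add_sub_cancel_right]

theorem IsLocal.mem {S : B → B} (h : s.IsLocal S) {y : B} (hy : y ∈ s.T) : S y ∈ s.T := by
  obtain ⟨w, hw, e⟩ := h.loc y hy
  rw [e]; exact s.T_mul hw hy

theorem IsLocal.continuousOn {S : B → B} (h : s.IsLocal S) : ContinuousOn S s.T := by
  obtain ⟨C, hC, hbd⟩ := h.bound
  refine LipschitzOnWith.continuousOn (K := ⟨C, hC.le⟩) ?_
  refine LipschitzOnWith.of_dist_le_mul fun y hy z hz => ?_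
  rw [dist_eq_norm, dist_eq_norm, ← h.sub y hy z hz]
  exact hbd _ (sub_mem hy hz)

theorem IsLocal.comp {S : B → B} (h : s.IsLocal S) {x : B} (hx : x ∈ s.T) :
    s.IsLocal (fun y => S (x * y)) where
  add y hy z hz := by rw [mul_add, h.add _ (s.T_mul hx hy) _ (s.T_mul hx hz)]
  smul c y hy := by rw [mul_smul_comm, h.smul c _ (s.T_mul hx hy)]
  bound := by
    obtain ⟨C, hC, hbd⟩ := h.bound
    refine ⟨C * (‖x‖ + 1), by positivity, fun y hy => (hbd _ (s.T_mul hx hy)).trans ?_⟩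
    rw [mul_assoc]
    refine mul_le_mul_of_nonneg_left ((norm_mul_le _ _).trans ?_) hC.le
    nlinarith [norm_nonneg y]
  loc y hy := by
    obtain ⟨w, hw, e⟩ := h.loc _ (s.T_mul hx hy)
    exact ⟨w * x, s.T_mul hw hx, by rw [e, mul_assoc]⟩

theorem IsLocal.div {S : B → B} (h : s.IsLocal S) {y : B} (hy : y ∈ s.T) (l : ℂ) :
    ∃ u ∈ s.T, S y - S 1 * y = u * (y - l • 1) := by
  have h1 : l • (1 : B) ∈ s.T := s.T.smul_mem l s.one_mem_T
  obtain ⟨w, hw, e⟩ := h.loc _ (sub_mem hy h1)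
  refine ⟨w - S 1, sub_mem hw (h.mem s.one_mem_T), ?_⟩
  rw [sub_mul, ← e, h.sub y hy _ h1, h.smul l 1 s.one_mem_T, mul_sub, mul_smul_comm, mul_one]
  abel

variable (s)

/-- the elements which pass through all local multipliers -/
def Good (b : B) : Prop := b ∈ s.T ∧ ∀ S, s.IsLocal S → S b = S 1 * b

variable {s}

theorem Good.add {a b : B} (ha : s.Good a) (hb : s.Good b) : s.Good (a + b) :=
  ⟨add_mem ha.1 hb.1, fun S hS => by rw [hS.add a ha.1 b hb.1, ha.2 S hS, hb.2 S hS, mul_add]⟩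

theorem Good.smul {a : B} (ha : s.Good a) (c : ℂ) : s.Good (c • a) :=
  ⟨s.T.smul_mem c ha.1, fun S hS => by rw [hS.smul c a ha.1, ha.2 S hS, mul_smul_comm]⟩

theorem Good.sub {a b : B} (ha : s.Good a) (hb : s.Good b) : s.Good (a - b) :=
  ⟨sub_mem ha.1 hb.1, fun S hS => by rw [hS.sub a ha.1 b hb.1, ha.2 S hS, hb.2 S hS, mul_sub]⟩

theorem Good.mul {a b : B} (ha : s.Good a) (hb : s.Good b) : s.Good (a * b) :=
  ⟨s.T_mul ha.1 hb.1, fun S hS => by
    have := hb.2 _ (hS.comp ha.1)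
    simp only [mul_one] at this
    rw [this, ha.2 S hS, mul_assoc]⟩

theorem isClosed_good : IsClosed {b | s.Good b} := by
  have : {b | s.Good b} = (s.T : Set B) ∩ ⋂ S ∈ {S | s.IsLocal S}, {b ∈ (s.T : Set B) | S b = S 1 * b} := by
    ext b
    simp only [Good, Set.mem_ofPred_eq, Set.mem_inter_iff, Set.mem_iInter, SetLike.mem_coe]
    exact ⟨fun h => ⟨h.1, fun S hS => ⟨h.1, h.2 S hS⟩⟩, fun h => ⟨h.1, fun S hS => (h.2 S hS).2⟩⟩
  rw [this]
  refine s.T_closed.inter (isClosed_biInter fun S hS => ?_)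
  exact s.T_closed.isClosed_eq (IsLocal.continuousOn hS) (by fun_prop)

theorem good_conj {u v h : B} (hu : u ∈ s.T) (hv : v ∈ s.T) (huv : u * v = 1) (hvu : v * u = 1)
    (hh : h ∈ s.A) (hsa : IsSelfAdjoint h) : s.Good (u * h * v) := by
  have hT : u * h * v ∈ s.T := s.T_mul (s.T_mul hu (s.A_le_T hh)) hv
  refine ⟨hT, fun S hS => ?_⟩
  have h0 : (S (u * h * v) - S 1 * (u * h * v)) * u = 0 := by
    refine eq_zero_of_forall_mem _ h hsa fun l => ?_
    obtain ⟨w, -, e⟩ := hS.div hT (l : ℂ)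
    refine ⟨w * u, ?_⟩
    rw [e, Algebra.algebraMap_eq_smul_one, ← Complex.coe_smul, mul_assoc, mul_assoc w, sub_mul,
      mul_sub u, mul_assoc (u * h), hvu, mul_one, smul_mul_assoc, one_mul, mul_smul_comm, mul_one]
  have h1 := congrArg (· * v) h0
  simp only [mul_assoc, huv, mul_one, zero_mul] at h1
  rw [sub_eq_zero] at h1
  simpa only [mul_assoc] using h1

theorem of_selfAdjoint {p : B → Prop} (hadd : ∀ a b, p a → p b → p (a + b))
    (hsmul : ∀ (c : ℂ) a, p a → p (c • a)) (hsa : ∀ h ∈ s.A, IsSelfAdjoint h → p h) :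
    ∀ c ∈ s.A, p c := by
  intro c hc
  have e : c = (1 / 2 : ℂ) • (c + star c) + (-I / 2 : ℂ) • (I • (c - star c)) := by
    rw [smul_smul, show (-I / 2 : ℂ) * I = 1 / 2 by linear_combination (-1 / 2 : ℂ) * I_mul_I,
      ← smul_add, show c + star c + (c - star c) = (2 : ℂ) • c by rw [two_smul]; abel, smul_smul]
    norm_num
  rw [e]
  refine hadd _ _ (hsmul _ _ (hsa _ (add_mem hc (star_mem hc)) (IsSelfAdjoint.add_star_self c)))
    (hsmul _ _ (hsa _ (SMulMemClass.smul_mem _ (sub_mem hc (star_mem hc))) ?_))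
  rw [IsSelfAdjoint, star_smul, star_sub, star_star]
  simp only [RCLike.star_def, conj_I, neg_smul, smul_sub]
  abel

theorem good_A : ∀ c ∈ s.A, s.Good c :=
  of_selfAdjoint (fun _ _ => Good.add) (fun c _ h => h.smul c) fun h hh hsa => by
    simpa using good_conj s.one_mem_T s.one_mem_T (one_mul 1) (one_mul 1) hh hsa

theorem good_comm {n : B} (hn : n ∈ s.T) : ∀ c ∈ s.A, s.Good (n * c - c * n) := by
  refine of_selfAdjoint (p := fun c => s.Good (n * c - c * n)) ?_ ?_ ?_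
  · intro a b ha hb
    convert ha.add hb using 1
    rw [mul_add, add_mul]; abel
  · intro c a ha
    convert ha.smul c using 1
    rw [mul_smul_comm, smul_mul_assoc, smul_sub]
  intro h hh hsa
  have hpow : ∀ x ∈ s.T, ∀ i : ℕ, x ^ i ∈ s.T := by
    intro x hx i
    induction i with
    | zero => simpa using s.one_mem_T
    | succ i ih => rw [pow_succ]; exact s.T_mul ih hx
  let v : ℝ → B := fun ε => ∑' i : ℕ, (-((ε : ℂ) • n)) ^ i
  have hsmall : ∀ ε : ℝ, 0 < ε → ε ≤ 1 / (2 * (‖n‖ + 1)) → ‖-((ε : ℂ) • n)‖ ≤ 1 / 2 := by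
    intro ε h0 h1
    rw [norm_neg, norm_smul, Complex.norm_real, Real.norm_eq_abs, abs_of_pos h0]
    rw [le_div_iff₀ (by positivity)] at h1
    nlinarith [norm_nonneg n]
  have hgood : ∀ ε : ℝ, 0 < ε → ε ≤ 1 / (2 * (‖n‖ + 1)) → s.Good ((n * h - h * n) * v ε) := by
    intro ε h0 h1
    have hlt : ‖-((ε : ℂ) • n)‖ < 1 := (hsmall ε h0 h1).trans_lt (by norm_num)
    have hx : -((ε : ℂ) • n) ∈ s.T := neg_mem (s.T.smul_mem _ hn)
    have hv : v ε ∈ s.T :=
      s.T_closed.mem_of_tendsto (summable_geometric_of_norm_lt_one hlt).hasSum.tendsto_sum_nat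
        (Eventually.of_forall fun k => sum_mem fun i _ => hpow _ hx i)
    have e1 := mul_neg_geom_series _ hlt
    have e2 := geom_series_mul_neg _ hlt
    have g1 := good_conj (sub_mem s.one_mem_T hx) hv e1 e2 hh hsa
    have g2 := (g1.sub (good_A h hh)).smul (ε : ℂ)⁻¹
    convert g2 using 1
    have hε : (ε : ℂ) ≠ 0 := by exact_mod_cast h0.ne'
    have e3 : (1 - -((ε : ℂ) • n)) * h = h * (1 - -((ε : ℂ) • n)) + (ε : ℂ) • (n * h - h * n) := by
      simp only [sub_neg_eq_add, add_mul, mul_add, one_mul, mul_one, smul_mul_assoc, mul_smul_comm,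
        smul_sub]
      abel
    rw [e3, add_mul, mul_assoc h]
    change _ = (ε : ℂ)⁻¹ • (h * ((1 - -((ε : ℂ) • n)) * ∑' i : ℕ, (-((ε : ℂ) • n)) ^ i) + _ - h)
    rw [e1, mul_one, add_sub_cancel_left, smul_mul_assoc, smul_smul, inv_mul_cancel₀ hε, one_smul]
  have hv1 : Tendsto v (𝓝[>] 0) (𝓝 1) := by
    rw [tendsto_iff_norm_sub_tendsto_zero]
    have ht : Tendsto (fun ε : ℝ => (‖n‖ * (‖(1 : B)‖ + 1)) * ε) (𝓝[>] 0) (𝓝 0) := by
      have : Tendsto (fun ε : ℝ => (‖n‖ * (‖(1 : B)‖ + 1)) * ε) (𝓝 0)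
          (𝓝 ((‖n‖ * (‖(1 : B)‖ + 1)) * 0)) := (continuous_const.mul continuous_id).tendsto 0
      rw [mul_zero] at this
      exact this.mono_left nhdsWithin_le_nhds
    refine squeeze_zero' (Eventually.of_forall fun _ => norm_nonneg _) ?_ ht
    filter_upwards [Ioc_mem_nhdsGT (show (0 : ℝ) < 1 / (2 * (‖n‖ + 1)) by positivity)] with ε hε
    have hs := hsmall ε hε.1 hε.2
    have hlt : ‖-((ε : ℂ) • n)‖ < 1 := hs.trans_lt (by norm_num)
    have e1 := mul_neg_geom_series _ hlt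
    have e2 : v ε - 1 = -((ε : ℂ) • n) * v ε := by
      rw [sub_mul, one_mul] at e1
      rw [← e1]; simp [v]
    have e3 : ‖v ε‖ ≤ ‖(1 : B)‖ + 1 := by
      refine (tsum_geometric_le_of_norm_lt_one _ hlt).trans ?_
      have : (1 - ‖-((ε : ℂ) • n)‖)⁻¹ ≤ 2 := by
        rw [inv_le_comm₀ (by linarith) two_pos]; linarith
      linarith
    rw [e2]
    refine (norm_mul_le _ _).trans ?_
    rw [norm_neg, norm_smul, Complex.norm_real, Real.norm_eq_abs, abs_of_pos hε.1]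
    have := mul_le_mul_of_nonneg_left e3 (mul_nonneg hε.1.le (norm_nonneg n))
    linarith
  have hlim : Tendsto (fun ε => (n * h - h * n) * v ε) (𝓝[>] 0) (𝓝 (n * h - h * n)) := by
    simpa using hv1.const_mul (n * h - h * n)
  refine isClosed_good.mem_of_tendsto hlim ?_
  filter_upwards [Ioc_mem_nhdsGT (show (0 : ℝ) < 1 / (2 * (‖n‖ + 1)) by positivity)] with ε hε
  exact hgood ε hε.1 hε.2

theorem good_X {t : B} (ht : t ∈ s.X) : s.Good t := by
  refine ⟨s.X_le_T ht, fun S hS => ?_⟩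
  obtain ⟨C, hC, hbd⟩ := hS.bound
  have hr : ∀ y ∈ s.T, ∀ c ∈ s.A, S (y * c) - S 1 * (y * c) = (S y - S 1 * y) * c := by
    intro y hy c hc
    have := (good_A c hc).2 _ (hS.comp hy)
    simp only [mul_one] at this
    rw [this, sub_mul, mul_assoc]
  refine sub_eq_zero.1 (s.eq_zero_of_symm (fun y => S y - S 1 * y) (C + ‖S 1‖) (by positivity)
    ?_ ?_ ?_ ?_ hr ?_ ?_ ht)
  · intro y hy z hz
    simp only [hS.add y hy z hz, mul_add]; abel
  · intro c y hy
    simp only [hS.smul c y hy, mul_smul_comm, smul_sub]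
  · intro y hy
    refine (norm_sub_le _ _).trans ?_
    rw [add_mul]
    exact add_le_add (hbd y hy) (norm_mul_le _ _)
  · intro y hy
    exact sub_mem (hS.mem hy) (s.T_mul (hS.mem s.one_mem_T) hy)
  · intro y hy c hc
    have h1 := (good_comm hy c hc).2 S hS
    rw [hS.sub _ (s.T_mul hy (s.A_le_T hc)) _ (s.T_mul (s.A_le_T hc) hy), mul_sub] at h1
    rw [← hr y hy c hc, sub_eq_sub_iff_sub_eq_sub, ← neg_sub, h1, neg_sub]
  · intro y hy l
    exact hS.div hy l

theorem good_V : ∀ k, ∀ y ∈ s.V k, s.Good y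
  | 0, y, hy => good_A y hy
  | k + 1, _, hy =>
    Submodule.mul_induction_on hy (fun m hm _ hn => (good_V k m hm).mul (good_X hn))
      fun _ _ => Good.add

/-- every bounded local left multiplier of the unital tensor algebra is a left multiplier -/
theorem IsLocal.eq_mul {S : B → B} (hS : s.IsLocal S) {y : B} (hy : y ∈ s.T) : S y = S 1 * y :=
  (s.T_induction (p := s.Good) hy good_V (fun _ _ => Good.add) isClosed_good).2 S hS

end Setup

end Pool.Agent.H797Z
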