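import Mathlib
import Pool.Agent.H797Z.CorrDefs
import Pool.Agent.H797Z.Build
import Pool.Agent.H797Z.Local

set_option autoImplicit false

namespace Pool.Agent.H797Z

universe u v w

theorem PreSetup.local_eq {B : Type w} [NonUnitalCStarAlgebra B] (p : PreSetup B)
    (S : p.T₀ →L[ℂ] p.T₀) (hS : ∀ a, ∃ x, S a = x * a) (a b : p.T₀) : S (a * b) = S a * b := by
  classical
  obtain ⟨C, hC, hbd⟩ : ∃ C, 0 < C ∧ ∀ x : p.T₀, ‖(S x : B)‖ ≤ C * ‖(x : B)‖ := by
    let S' : p.T₀.toSubmodule →L[ℂ] p.T₀.toSubmodule := S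
    exact S'.bound
  have ha : (a : Unitization ℂ B).fst = 0 ∧ ((a : B) : Unitization ℂ B).snd ∈ p.T₀ := ⟨rfl, a.2⟩
  let Φ : Unitization ℂ B → Unitization ℂ B := fun y =>
    if h : (((a : B) : Unitization ℂ B) * y).snd ∈ p.T₀ then ((S ⟨_, h⟩ : B) : Unitization ℂ B)
    else 0
  have hΦ : ∀ y (hy : y ∈ p.setup.T),
      Φ y = ((S ⟨_, (p.mul_mem_T₀ hy _ ha).2⟩ : B) : Unitization ℂ B) := fun y hy =>
    dif_pos (p.mul_mem_T₀ hy _ ha).2
  have hinr : ∀ y ∈ p.setup.T, (((((a : B) : Unitization ℂ B) * y).snd : B) : Unitization ℂ B)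
      = ((a : B) : Unitization ℂ B) * y := by
    intro y hy
    ext
    · simp
    · simp
  have hloc : p.setup.IsLocal Φ := by
    refine ⟨?_, ?_, ⟨C * ‖(a : B)‖ + 1, by positivity, ?_⟩, ?_⟩
    · intro y hy z hz
      rw [hΦ y hy, hΦ z hz, hΦ _ (add_mem hy hz), ← Unitization.inr_add, ← AddMemClass.coe_add,
        ← map_add]
      congr 3
      ext
      simp [mul_add]
    · intro c y hy
      rw [hΦ y hy, hΦ _ (p.setup.T.smul_mem c hy), ← Unitization.inr_smul,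
        ← SetLike.val_smul, ← map_smul]
      congr 3
      ext
      simp
    · intro y hy
      rw [hΦ y hy, Unitization.norm_inr]
      have h1 := hbd ⟨_, (p.mul_mem_T₀ hy _ ha).2⟩
      have h2 : ‖(((a : B) : Unitization ℂ B) * y).snd‖ ≤ ‖(a : B)‖ * ‖y‖ := by
        rw [← Unitization.norm_inr (𝕜 := ℂ), hinr y hy, ← Unitization.norm_inr (𝕜 := ℂ) (a : B)]
        exact norm_mul_le _ _
      have h3 : C * ‖(((a : B) : Unitization ℂ B) * y).snd‖ ≤ C * (‖(a : B)‖ * ‖y‖) :=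
        mul_le_mul_of_nonneg_left h2 hC.le
      refine h1.trans (h3.trans ?_)
      nlinarith [norm_nonneg y]
    · intro y hy
      obtain ⟨x, hx⟩ := hS ⟨_, (p.mul_mem_T₀ hy _ ha).2⟩
      refine ⟨((x : B) : Unitization ℂ B) * ((a : B) : Unitization ℂ B),
        p.setup.T_mul (p.inr_mem_T x.2) (p.inr_mem_T a.2), ?_⟩
      rw [hΦ y hy, hx, MulMemClass.coe_mul, Unitization.inr_mul, hinr y hy, mul_assoc]
  have h1 := hloc.eq_mul (p.inr_mem_T b.2)
  rw [hΦ _ (p.inr_mem_T b.2), hΦ _ p.setup.one_mem_T] at h1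
  have h2 := Unitization.inr_injective (h1.trans (Unitization.inr_mul ℂ _ _).symm)
  apply Subtype.ext
  rw [MulMemClass.coe_mul]
  convert h2 using 3
  · ext; simp
  · ext; simp

variable {A : Type u} {X : Type v} [NonUnitalCStarAlgebra A] [NormedAddCommGroup X]
  [NormedSpace ℂ X] [CompleteSpace X]

theorem IsToeplitzRep.act {C : Corr A X} {B : Type w} [NonUnitalCStarAlgebra B]
    {π : A →⋆ₙₐ[ℂ] B} {t : X →ₗ[ℂ] B} (h : IsToeplitzRep C π t) (ξ : X) (a : A) :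
    t ξ * π a = t (C.act ξ a) := by
  have e : ∀ η, star (t η) * (t ξ * π a - t (C.act ξ a)) = 0 := by
    intro η
    rw [mul_sub, ← mul_assoc, h.2, h.2, C.inner_act, map_mul, sub_self]
  have : star (t ξ * π a - t (C.act ξ a)) * (t ξ * π a - t (C.act ξ a)) = 0 := by
    rw [star_sub, sub_mul, e, star_mul, mul_assoc, e, mul_zero, sub_zero]
  exact sub_eq_zero.1 ((CStarRing.star_mul_self_eq_zero_iff _).1 this)

theorem star_ch_mul (θ : ℝ) : star (ch 1 θ) * ch 1 θ = 1 := by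
  rw [star_ch, ← ch_add]; simp [ch_zero]

theorem local_multiplier (C : Corr A X) {B : Type w} [NonUnitalCStarAlgebra B]
    (π : A →⋆ₙₐ[ℂ] B) (t : X →ₗ[ℂ] B) (hU : IsUniversalToeplitzRep C π t)
    (S : tensorAlgebra π t →L[ℂ] tensorAlgebra π t) (hS : ∀ a, ∃ x, S a = x * a)
    (a b : tensorAlgebra π t) : S (a * b) = S a * b := by
  obtain ⟨h, hgen, huniv⟩ := hU
  have hγ : ∀ θ : ℝ, ∃ ρ : B →⋆ₙₐ[ℂ] B, (∀ a, ρ (π a) = π a) ∧ ∀ ξ, ρ (t ξ) = (ch 1 θ • t) ξ := by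
    intro θ
    refine huniv B π (ch 1 θ • t) ⟨fun a ξ => ?_, fun ξ η => ?_⟩
    · simp only [LinearMap.smul_apply, mul_smul_comm, h.1]
    · simp only [LinearMap.smul_apply, star_smul, smul_mul_smul_comm, star_ch_mul, one_smul, h.2]
  choose γ hγ1 hγ2 using hγ
  let p : PreSetup B :=
    { A := NonUnitalStarAlgHom.range π
      X := LinearMap.range t
      γ := γ
      mul_left := by
        rintro _ ⟨a, rfl⟩ _ ⟨ξ, rfl⟩
        exact ⟨_, (h.1 a ξ).symm⟩
      mul_right := by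
        rintro _ ⟨a, rfl⟩ _ ⟨ξ, rfl⟩
        exact ⟨_, (h.act ξ a).symm⟩
      star_mul_mem := by
        rintro _ ⟨η, rfl⟩ _ ⟨ξ, rfl⟩
        exact ⟨_, (h.2 η ξ).symm⟩
      γ_A := by
        rintro θ _ ⟨a, rfl⟩
        exact hγ1 θ a
      γ_X := by
        rintro θ _ ⟨a, rfl⟩
        exact hγ2 θ a
      gen := hgen }
  exact p.local_eq S hS a b

end Pool.Agent.H797Z
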