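import Mathlib

set_option autoImplicit false

namespace Pool.Agent.H797Z

open Filter Topology Finset

variable {T : Type*} [NonUnitalNormedRing T] [NormedSpace ℂ T]
  {ι : Type*} [Fintype ι] [DecidableEq ι]

theorem iterate_leibniz (d : T →L[ℂ] T) (hd : ∀ a b, d (a * b) = d a * b + a * d b) (n : ℕ)
    (a b : T) :
    d^[n] (a * b) = ∑ ij ∈ antidiagonal n, n.choose ij.1 • (d^[ij.1] a * d^[ij.2] b) := by
  induction n with
  | zero => simp
  | succ n ih =>
    rw [sum_antidiagonal_choose_succ_nsmul (M := T) (fun i j => d^[i] a * d^[j] b) n]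
    simp only [Function.iterate_succ_apply', ih, map_sum, map_nsmul, hd, smul_add,
      sum_add_distrib]
    rw [add_comm, add_right_inj]
    refine sum_congr rfl fun ⟨i, j⟩ hij ↦ ?_
    rw [n.choose_symm_of_eq_add (mem_antidiagonal.1 hij).symm]

theorem sinclair (ρ : T →ₙₐ[ℂ] Matrix ι ι ℂ) (hρ : Continuous ρ) (d : T →L[ℂ] T)
    (hd : ∀ a b, d (a * b) = d a * b + a * d b) {a : T} (ha : ρ a = 0) (i : ι) (c : ℂ)
    (h : ρ (d a) = Matrix.single i i c) : c = 0 := by
  let pw : ℕ → T := fun n => Nat.rec a (fun _ y => a * y) n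
  have hpw : ∀ n, pw (n + 1) = a * pw n := fun n => rfl
  have key : ∀ n, (∀ k ≤ n, ρ (d^[k] (pw n)) = 0) ∧
      ρ (d^[n + 1] (pw n)) = Matrix.single i i ((n + 1).factorial * c ^ (n + 1)) := by
    intro n
    induction n with
    | zero =>
      refine ⟨fun k hk => ?_, ?_⟩
      · obtain rfl : k = 0 := by omega
        exact ha
      · simpa [pw] using h
    | succ n ih =>
      refine ⟨fun k hk => ?_, ?_⟩
      · rw [hpw, iterate_leibniz d hd, map_sum]
        refine sum_eq_zero fun ⟨i', j⟩ hij => ?_
        rw [HasAntidiagonal.mem_antidiagonal] at hij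
        rw [map_nsmul, map_mul]
        rcases Nat.eq_zero_or_pos i' with rfl | hi
        · simp [ha]
        · rw [ih.1 j (by simp only at hij; omega)]; simp
      · rw [hpw, iterate_leibniz d hd, map_sum, sum_eq_single (1, n + 1)]
        · rw [map_nsmul, map_mul]
          simp only [Function.iterate_one, Nat.choose_one_right]
          rw [h, ih.2, Matrix.single_mul_single_same, Matrix.smul_single]
          congr 1
          rw [Nat.factorial_succ (n + 1), nsmul_eq_mul]
          push_cast; ring
        · rintro ⟨i', j⟩ hij hne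
          rw [HasAntidiagonal.mem_antidiagonal] at hij
          rw [map_nsmul, map_mul]
          rcases Nat.eq_zero_or_pos i' with rfl | hi
          · simp [ha]
          · have : j ≤ n := by
              by_contra hj
              apply hne
              simp only at hij
              ext <;> simp only <;> omega
            rw [ih.1 j this]; simp
        · intro hh
          exact absurd (HasAntidiagonal.mem_antidiagonal.2 (by simp only; omega)) hh
  let ω : T →L[ℂ] ℂ :=
    { toFun := fun y => ρ y i i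
      map_add' := fun x y => by simp
      map_smul' := fun r x => by simp
      cont := by fun_prop }
  have hn1 : ∀ k y, ‖d^[k] y‖ ≤ ‖d‖ ^ k * ‖y‖ := by
    intro k
    induction k with
    | zero => simp
    | succ k ih =>
      intro y
      rw [Function.iterate_succ_apply', pow_succ', mul_assoc]
      exact (d.le_opNorm _).trans (mul_le_mul_of_nonneg_left (ih y) (norm_nonneg _))
  have hn2 : ∀ n, ‖pw n‖ ≤ ‖a‖ ^ (n + 1) := by
    intro n
    induction n with
    | zero => simp [pw]
    | succ n ih =>
      rw [hpw, pow_succ']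
      exact (norm_mul_le _ _).trans (mul_le_mul_of_nonneg_left ih (norm_nonneg _))
  by_contra hc
  have hc0 : 0 < ‖c‖ := norm_pos_iff.2 hc
  have hb : ∀ n : ℕ, 1 ≤ ‖ω‖ * ((‖d‖ * ‖a‖ / ‖c‖) ^ (n + 1) / (n + 1).factorial) := by
    intro n
    have h1 : ‖ω (d^[n + 1] (pw n))‖ ≤ ‖ω‖ * (‖d‖ ^ (n + 1) * ‖a‖ ^ (n + 1)) :=
      (ω.le_opNorm _).trans (mul_le_mul_of_nonneg_left ((hn1 _ _).trans
        (mul_le_mul_of_nonneg_left (hn2 n) (by positivity))) (norm_nonneg _))
    have h2 : ω (d^[n + 1] (pw n)) = (n + 1).factorial * c ^ (n + 1) := by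
      change ρ (d^[n + 1] (pw n)) i i = _
      rw [(key n).2, Matrix.single_apply_same]
    rw [h2, norm_mul, norm_pow, Complex.norm_natCast] at h1
    have hf : (0 : ℝ) < (n + 1).factorial := by positivity
    rw [div_pow, mul_pow, div_div, ← mul_div_assoc, le_div_iff₀ (by positivity)]
    linarith
  have ht : Tendsto (fun n : ℕ => ‖ω‖ * ((‖d‖ * ‖a‖ / ‖c‖) ^ (n + 1) / (n + 1).factorial))
      atTop (𝓝 0) := by
    have := ((Real.summable_pow_div_factorial (‖d‖ * ‖a‖ / ‖c‖)).tendsto_atTop_zero.comp
      (tendsto_add_atTop_nat 1)).const_mul ‖ω‖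
    simpa using this
  have := ge_of_tendsto' ht hb
  linarith

theorem local_deriv (ρ : T →ₙₐ[ℂ] Matrix ι ι ℂ) (hρ : Continuous ρ)
    (hker : ∀ d : T →L[ℂ] T, (∀ a b, d (a * b) = d a * b + a * d b) → ∀ a, ρ a = 0 → ρ (d a) = 0)
    (hgen : ∀ q : T → Prop, (∀ e, ρ e * ρ e = ρ e → q e) → (∀ x y, ρ x = ρ y → q x → q y) →
      (∀ x y, q x → q y → q (x + y)) → (∀ (c : ℂ) x, q x → q (c • x)) →
      (∀ x y, q x → q y → q (x * y)) → IsClosed {x | q x} → ∀ x, q x)
    (u : T) (hu : ρ u = 1) [IsScalarTower ℂ T T] [SMulCommClass ℂ T T]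
    (δ : T →L[ℂ] T) (hδ : ∀ a, ∃ d : ℕ → T →L[ℂ] T,
      (∀ n a b, d n (a * b) = d n a * b + a * d n b) ∧ Tendsto (fun n => d n a) atTop (𝓝 (δ a)))
    (a b : T) : ρ (δ (a * b)) = ρ (δ a) * ρ b + ρ a * ρ (δ b) := by
  have lim : ∀ (P Q : Matrix ι ι ℂ) (b : T), (∀ d : T →L[ℂ] T,
      (∀ a b, d (a * b) = d a * b + a * d b) → P * ρ (d b) * Q = 0) → P * ρ (δ b) * Q = 0 := by
    intro P Q b h
    obtain ⟨d, hd, ht⟩ := hδ b
    have h1 : Tendsto (fun n => P * ρ (d n b) * Q) atTop (𝓝 (P * ρ (δ b) * Q)) :=
      (((hρ.tendsto _).comp ht).const_mul P).mul_const Q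
    simp only [fun n => h (d n) (hd n)] at h1
    exact tendsto_nhds_unique h1 tendsto_const_nhds
  have K0 : ∀ a, ρ a = 0 → ρ (δ a) = 0 := fun a ha => by
    simpa using lim 1 1 a fun d hd => by simp [hker d hd a ha]
  have K0' : ∀ x y, ρ x = ρ y → ρ (δ x) = ρ (δ y) := fun x y h => by
    have := K0 (x - y) (by rw [map_sub, h, sub_self])
    rwa [map_sub, map_sub, sub_eq_zero] at this
  have K1 : ∀ (p b : T) (Q : Matrix ι ι ℂ), ρ p * ρ b = 0 → ρ b * Q = 0 →
      ρ p * ρ (δ b) * Q = 0 := by
    intro p b Q h1 h2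
    refine lim _ _ b fun d hd => ?_
    have := hker d hd (p * b) (by rw [map_mul, h1])
    rw [hd, map_add, map_mul, map_mul] at this
    have h3 := congrArg (· * Q) this
    simp only [add_mul, mul_assoc, h2, mul_zero, zero_add, zero_mul] at h3
    rw [mul_assoc]; exact h3
  have K2 : ρ (δ u) = 0 := by
    have := lim 1 1 u fun d hd => by
      have := hker d hd (u * u - u) (by rw [map_sub, map_mul, hu]; simp)
      rw [map_sub, hd, map_sub, map_add, map_mul, map_mul, hu] at this
      simpa using this
    simpa using this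
  let G : T → T → T → Matrix ι ι ℂ := fun x a y =>
    ρ (δ (x * a * y)) - ρ x * ρ (δ (a * y)) - ρ (δ (x * a)) * ρ y + ρ x * ρ (δ a) * ρ y
  have hidem : ∀ e f a, ρ e * ρ e = ρ e → ρ f * ρ f = ρ f → G e a f = 0 := by
    intro e f a he hf
    have he' : ∀ M : Matrix ι ι ℂ, ρ e * (ρ e * M) = ρ e * M := fun M => by rw [← mul_assoc, he]
    have h1 := K1 (u - e) (e * a * f) (1 - ρ f)
      (by simp [hu, sub_mul, mul_assoc, he']) (by simp [mul_sub, mul_assoc, hf])
    have h2 := K1 e (a * f - e * a * f) (1 - ρ f)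
      (by simp [mul_sub, mul_assoc, he']) (by simp [mul_sub, sub_mul, mul_assoc, hf])
    have h3 := K1 (u - e) (e * a - e * a * f) (ρ f)
      (by simp [hu, sub_mul, mul_sub, mul_assoc, he']) (by simp [sub_mul, mul_assoc, hf])
    have h4 := K1 e (a - e * a - a * f + e * a * f) (ρ f)
      (by simp [mul_sub, mul_add, mul_assoc, he']) (by simp [sub_mul, add_mul, mul_assoc, hf])
    simp only [map_sub, map_add, hu] at h1 h2 h3 h4
    simp only [G]
    generalize ρ (δ (e * a * f)) = X at *
    generalize ρ (δ (a * f)) = Y at *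
    generalize ρ (δ (e * a)) = Z at *
    generalize ρ (δ a) = W at *
    generalize ρ e = E at *
    generalize ρ f = F at *
    have : X - E * Y - Z * F + E * W * F = (1 - E) * X * (1 - F) - E * (Y - X) * (1 - F)
        - (1 - E) * (Z - X) * F + E * (W - Z - Y + X) * F := by noncomm_ring
    rw [this, h1, h2, h3, h4]; simp
  have hL : ∀ f, ρ f * ρ f = ρ f → ∀ x a, G x a f = 0 := by
    intro f hf
    refine hgen (fun x => ∀ a, G x a f = 0) (fun e he a => hidem e f a he hf) ?_ ?_ ?_ ?_ ?_
    · intro x y hxy hx a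
      have := hx a
      simp only [G] at this ⊢
      rwa [← hxy, ← K0' (x * a * f) (y * a * f) (by simp [hxy]), ← K0' (x * a) (y * a)
        (by simp [hxy])]
    · intro x y hx hy a
      have := congrArg₂ (· + ·) (hx a) (hy a)
      simp only [G, add_mul, map_add, add_zero] at this ⊢
      rw [← this]; abel
    · intro c x hx a
      have := congrArg (c • ·) (hx a)
      simp only [G, smul_mul_assoc, map_smul, smul_zero, smul_add, smul_sub] at this ⊢
      exact this
    · intro x y hx hy a
      have h1 := hx (y * a)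
      have h2 := congrArg (ρ x * ·) (hy a)
      have := congrArg₂ (· + ·) h1 h2
      simp only [G, map_mul, mul_assoc, mul_zero, add_zero, mul_add, mul_sub] at this ⊢
      rw [← this]; abel
    · simp only [Set.ofPred_forall]
      exact isClosed_iInter fun a => isClosed_eq (by simp only [G]; fun_prop) continuous_const
  have hR : ∀ y x a, G x a y = 0 := by
    refine hgen (fun y => ∀ x a, G x a y = 0) hL ?_ ?_ ?_ ?_ ?_
    · intro y y' hyy hy x a
      have := hy x a
      simp only [G] at this ⊢
      rwa [← hyy, ← K0' (x * a * y) (x * a * y') (by simp [hyy]), ← K0' (a * y) (a * y')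
        (by simp [hyy])]
    · intro y y' hy hy' x a
      have := congrArg₂ (· + ·) (hy x a) (hy' x a)
      simp only [G, mul_add, map_add, add_zero] at this ⊢
      rw [← this]; abel
    · intro c y hy x a
      have := congrArg (c • ·) (hy x a)
      simp only [G, mul_smul_comm, map_smul, smul_zero, smul_add, smul_sub] at this ⊢
      exact this
    · intro y y' hy hy' x a
      have h1 := hy' x (a * y)
      have h2 := congrArg (· * ρ y') (hy x a)
      have := congrArg₂ (· + ·) h1 h2
      simp only [G, map_mul, mul_assoc, zero_mul, add_zero, add_mul, sub_mul] at this ⊢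
      rw [← this]; abel
    · simp only [Set.ofPred_forall]
      exact isClosed_iInter fun x => isClosed_iInter fun a =>
        isClosed_eq (by simp only [G]; fun_prop) continuous_const
  have := hR b a u
  simp only [G] at this
  rw [K2, K0' (a * u * b) (a * b) (by simp [hu]), K0' (u * b) b (by simp [hu]),
    K0' (a * u) a (by simp [hu])] at this
  simp only [mul_zero, zero_mul, add_zero] at this
  rw [← sub_eq_zero, ← this]; abel

end Pool.Agent.H797Z
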