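import Mathlib
import Pool.Agent.H797Z.CorrDefs

set_option autoImplicit false

namespace Pool.Agent.H797Z

open scoped ZeroAtInfty

/-- The C*-correspondence of the dynamical system `(Ω, σ)`: the space `C₀(Ω)` (the sup-norm
completion of the compactly supported continuous functions) over the C*-algebra `C₀(Ω)`, with
`(f F g)(x) = f(σ x) F(x) g(x)` and `⟨F, G⟩(x) = conj(F x) G(x)`. -/
noncomputable def dynCorr {Ω : Type} [TopologicalSpace Ω] (σ : CocompactMap Ω Ω) :
    Corr C₀(Ω, ℂ) C₀(Ω, ℂ) where
  act := LinearMap.mul ℂ C₀(Ω, ℂ)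
  act_mul F a b := (mul_assoc F a b).symm
  inner := LinearMap.mk₂'ₛₗ (starRingEnd ℂ) (RingHom.id ℂ) (fun F G => star F * G)
    (fun F F' G => by rw [star_add, add_mul])
    (fun c F G => by rw [star_smul, smul_mul_assoc]; rfl)
    (fun F G G' => mul_add _ _ _) (fun c F G => mul_smul_comm _ _ _)
  inner_act F G a := (mul_assoc (star F) G a).symm
  star_inner F G := by
    ext x
    change star (star (F x) * G x) = star (G x) * F x
    rw [star_mul, star_star]
  inner_nonneg F := ⟨F, rfl⟩
  norm_sq F := by
    rw [sq]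
    exact (CStarRing.norm_star_mul_self (x := F)).symm
  phi := (ContinuousLinearMap.mul ℂ C₀(Ω, ℂ)).toLinearMap ∘ₗ
    ZeroAtInftyContinuousMap.compLinearMap σ
  phi_mul a b F := mul_assoc (a.comp σ) (b.comp σ) F
  phi_star a F G := by
    ext x
    change star (a (σ x) * F x) * G x = star (F x) * (star (a (σ x)) * G x)
    rw [star_mul, mul_assoc]

end Pool.Agent.H797Z
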