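import Mathlib
import Pool.Agent.H797Z.DynDefs

set_option autoImplicit false

namespace Pool.Agent.H797Z

open Filter Topology Finset
open scoped ZeroAtInfty InnerProductSpace ComplexConjugate

/-- square-summable sequences -/
abbrev L2 : Type := lp (fun _ : ℕ => ℂ) 2

/-- the standard basis -/
noncomputable def bas (n : ℕ) : L2 := lp.single 2 n 1

theorem inner_bas_left (n : ℕ) (ξ : L2) : ⟪bas n, ξ⟫_ℂ = ξ n := by
  rw [bas, lp.inner_single_left]; simp

theorem inner_bas_right (n : ℕ) (ξ : L2) : ⟪ξ, bas n⟫_ℂ = conj (ξ n) := by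
  rw [bas, lp.inner_single_right]; simp

theorem bas_apply (n m : ℕ) : bas n m = if m = n then 1 else 0 := by
  rw [bas, lp.single_apply, Pi.single_apply]

theorem norm_bas (n : ℕ) : ‖bas n‖ = 1 := by
  rw [bas, lp.norm_single (by norm_num)]; simp

theorem orthonormal_bas_succ : Orthonormal ℂ fun n => bas (n + 1) := by
  classical
  rw [orthonormal_iff_ite]
  intro i j
  rw [inner_bas_left, bas_apply]; simp

theorem L2_ext {F : Type*} [NormedAddCommGroup F] [NormedSpace ℂ F] {f g : L2 →L[ℂ] F}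
    (h : ∀ n, f (bas n) = g (bas n)) : f = g :=
  lp.ext_continuousLinearMap (by norm_num) fun i => ContinuousLinearMap.ext_ring (h i)

/-- the unilateral shift -/
noncomputable def shift : L2 →ₗᵢ[ℂ] L2 := orthonormal_bas_succ.orthogonalFamily.linearIsometry

theorem shift_bas (n : ℕ) : shift (bas n) = bas (n + 1) := by
  rw [shift, bas, OrthogonalFamily.linearIsometry_apply_single]; simp

variable {Ω : Type} [TopologicalSpace Ω]

theorem norm_c0_apply_le (f : C₀(Ω, ℂ)) (y : Ω) : ‖f y‖ ≤ ‖f‖ :=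
  f.toBCF.norm_coe_le_norm y

/-- diagonal operators -/
noncomputable def diagOp (x : ℕ → Ω) (f : C₀(Ω, ℂ)) : L2 →L[ℂ] L2 :=
  lp.mapCLM 2 (fun n => ContinuousLinearMap.mul ℂ ℂ (f (x n))) (norm_nonneg f)
    fun n => by simpa using norm_c0_apply_le f (x n)

theorem diagOp_apply (x : ℕ → Ω) (f : C₀(Ω, ℂ)) (ξ : L2) (n : ℕ) :
    diagOp x f ξ n = f (x n) * ξ n := rfl

theorem diagOp_bas (x : ℕ → Ω) (f : C₀(Ω, ℂ)) (n : ℕ) : diagOp x f (bas n) = f (x n) • bas n := by
  ext m
  rw [diagOp_apply, lp.coeFn_smul, Pi.smul_apply, bas_apply]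
  split_ifs with h
  · subst h; simp
  · simp

/-- the diagonal representation along an orbit -/
noncomputable def piOp (x : ℕ → Ω) : C₀(Ω, ℂ) →⋆ₙₐ[ℂ] (L2 →L[ℂ] L2) where
  toFun := diagOp x
  map_smul' c f := L2_ext fun n => by simp [diagOp_bas, smul_smul]
  map_zero' := L2_ext fun n => by simp [diagOp_bas]
  map_add' f g := L2_ext fun n => by simp [diagOp_bas, add_smul]
  map_mul' f g := L2_ext fun n => by simp [diagOp_bas, smul_smul, mul_comm]
  map_star' f := by
    refine (ContinuousLinearMap.eq_adjoint_iff _ _).2 fun ξ η => ?_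
    rw [lp.inner_eq_tsum, lp.inner_eq_tsum]
    congr 1
    funext n
    simp [diagOp_apply, ZeroAtInftyContinuousMap.star_apply]
    ring

theorem piOp_bas (x : ℕ → Ω) (f : C₀(Ω, ℂ)) (n : ℕ) : piOp x f (bas n) = f (x n) • bas n :=
  diagOp_bas x f n

/-- the weighted shifts along an orbit -/
noncomputable def tOp (x : ℕ → Ω) : C₀(Ω, ℂ) →ₗ[ℂ] (L2 →L[ℂ] L2) where
  toFun F := shift.toContinuousLinearMap ∘L piOp x F
  map_add' F G := by rw [map_add, ContinuousLinearMap.comp_add]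
  map_smul' c F := by rw [map_smul, ContinuousLinearMap.comp_smul]; rfl

theorem tOp_apply (x : ℕ → Ω) (F : C₀(Ω, ℂ)) (ξ : L2) : tOp x F ξ = shift (piOp x F ξ) := rfl

theorem tOp_bas (x : ℕ → Ω) (F : C₀(Ω, ℂ)) (n : ℕ) : tOp x F (bas n) = F (x n) • bas (n + 1) := by
  rw [tOp_apply, piOp_bas, map_smul, shift_bas]

theorem isToeplitzRep_op (σ : CocompactMap Ω Ω) (x : ℕ → Ω) (hx : ∀ n, x (n + 1) = σ (x n)) :
    IsToeplitzRep (dynCorr σ) (piOp x) (tOp x) := by
  refine ⟨fun f F => L2_ext fun n => ?_, fun F G => ?_⟩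
  · change piOp x f (tOp x F (bas n)) = tOp x (f.comp σ * F) (bas n)
    rw [tOp_bas, tOp_bas, map_smul, piOp_bas, smul_smul, hx, mul_comm]
    rfl
  · change _ = piOp x (star F * G)
    rw [map_mul, map_star]
    ext1 η
    refine ext_inner_left ℂ fun ξ => ?_
    rw [mul_apply_eq_comp, mul_apply_eq_comp,
      ContinuousLinearMap.star_eq_adjoint, ContinuousLinearMap.star_eq_adjoint,
      ContinuousLinearMap.adjoint_inner_right, ContinuousLinearMap.adjoint_inner_right,
      tOp_apply, tOp_apply, LinearIsometry.inner_map_map]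

open Classical in
/-- the co-invariant vectors -/
noncomputable def eta {α : Type} (x : ℕ → α) (z : ℂ) (hz : ‖z‖ < 1) (s : α) : L2 :=
  ⟨fun n => if x n = s then conj z ^ n else 0, memℓp_gen (by
    refine Summable.of_nonneg_of_le (fun n => by positivity) (fun n => ?_)
      (summable_geometric_of_lt_one (norm_nonneg z) hz)
    have h1 : ‖z‖ ^ n ≤ 1 := pow_le_one₀ (norm_nonneg z) hz.le
    have h0 : 0 ≤ ‖z‖ ^ n := by positivity
    split_ifs
    · simp only [norm_pow, RCLike.norm_conj, ENNReal.toReal_ofNat, Real.rpow_ofNat]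
      nlinarith
    · simp)⟩

open Classical in
theorem inner_eta_bas {α : Type} (x : ℕ → α) (z : ℂ) (hz : ‖z‖ < 1) (s : α) (n : ℕ) :
    ⟪eta x z hz s, bas n⟫_ℂ = if x n = s then z ^ n else 0 := by
  rw [inner_bas_right]
  change conj (if x n = s then conj z ^ n else 0) = _
  split_ifs <;> simp

open Classical in
theorem inner_eta {α : Type} (x : ℕ → α) (z : ℂ) (hz : ‖z‖ < 1) (s : α) (ξ : L2) :
    ⟪eta x z hz s, ξ⟫_ℂ = ∑' n, (if x n = s then ξ n else 0) * z ^ n := by
  rw [lp.inner_eq_tsum]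
  congr 1
  funext n
  change ⟪(if x n = s then conj z ^ n else 0), ξ n⟫_ℂ = _
  split_ifs <;> simp

theorem coeff_eq_zero (M : ℝ) : ∀ (n : ℕ) (c : ℕ → ℂ), (∀ k, ‖c k‖ ≤ M) →
    (∀ r : ℝ, 0 < r → r < 1 → ∑' k, c k * (r : ℂ) ^ k = 0) → c n = 0 := by
  have hsum : ∀ (c : ℕ → ℂ), (∀ k, ‖c k‖ ≤ M) → ∀ r : ℝ, 0 < r → r < 1 →
      (Summable fun k => c k * (r : ℂ) ^ k) ∧ ‖∑' k, c k * (r : ℂ) ^ k‖ ≤ M * (1 - r)⁻¹ := by
    intro c hc r h0 h1
    have hb : ∀ k, ‖c k * (r : ℂ) ^ k‖ ≤ M * r ^ k := fun k => by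
      rw [norm_mul, norm_pow, Complex.norm_real, Real.norm_eq_abs, abs_of_pos h0]
      exact mul_le_mul_of_nonneg_right (hc k) (by positivity)
    have hg := (hasSum_geometric_of_lt_one h0.le h1).mul_left M
    exact ⟨Summable.of_norm_bounded hg.summable hb, tsum_of_norm_bounded hg hb⟩
  have hsplit : ∀ (c : ℕ → ℂ), (∀ k, ‖c k‖ ≤ M) → ∀ r : ℝ, 0 < r → r < 1 →
      ∑' k, c k * (r : ℂ) ^ k = c 0 + r * ∑' k, c (k + 1) * (r : ℂ) ^ k := by
    intro c hc r h0 h1
    rw [(hsum c hc r h0 h1).1.tsum_eq_zero_add, ← tsum_mul_left]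
    simp only [pow_zero, mul_one, pow_succ]
    congr 2
    funext k; ring
  have hzero : ∀ (c : ℕ → ℂ), (∀ k, ‖c k‖ ≤ M) →
      (∀ r : ℝ, 0 < r → r < 1 → ∑' k, c k * (r : ℂ) ^ k = 0) → c 0 = 0 := by
    intro c hc h
    have ht : Tendsto (fun r : ℝ => r * (M * (1 - r)⁻¹)) (𝓝[>] 0) (𝓝 0) := by
      have : ContinuousAt (fun r : ℝ => r * (M * (1 - r)⁻¹)) 0 := by
        fun_prop (disch := norm_num)
      simpa using this.tendsto.mono_left nhdsWithin_le_nhds
    refine norm_le_zero_iff.1 (ge_of_tendsto ht ?_)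
    filter_upwards [Ioo_mem_nhdsGT (zero_lt_one' ℝ)] with r hr
    have h1 := h r hr.1 hr.2
    rw [hsplit c hc r hr.1 hr.2, add_eq_zero_iff_eq_neg] at h1
    rw [h1, norm_neg, norm_mul, Complex.norm_real, Real.norm_eq_abs, abs_of_pos hr.1]
    exact mul_le_mul_of_nonneg_left (hsum _ (fun k => hc (k + 1)) r hr.1 hr.2).2 hr.1.le
  intro n
  induction n with
  | zero => exact hzero
  | succ n ih =>
    intro c hc h
    refine ih (fun k => c (k + 1)) (fun k => hc (k + 1)) fun r h0 h1 => ?_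
    have h2 := h r h0 h1
    rw [hsplit c hc r h0 h1, hzero c hc h, zero_add] at h2
    exact (mul_eq_zero.1 h2).resolve_left (by exact_mod_cast h0.ne')

theorem exists_back_closed {α : Type} (σ : α → α) (x : ℕ → α) (hx : ∀ n, x (n + 1) = σ (x n))
    (n : ℕ) : ∃ S : Finset α, x n ∈ S ∧ (∀ s ∈ S, ∃ k, x k = s) ∧
      ∀ k, x (k + 1) ∈ S → x k ∈ S := by
  classical
  by_cases hinj : Function.Injective x
  · refine ⟨(range (n + 1)).image x, mem_image_of_mem _ (by simp), fun s hs => ?_, fun k hk => ?_⟩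
    · obtain ⟨k, -, hk⟩ := mem_image.1 hs
      exact ⟨k, hk⟩
    · obtain ⟨j, hj, hjk⟩ := mem_image.1 hk
      obtain rfl := hinj hjk
      exact mem_image_of_mem _ (by simp at hj ⊢; omega)
  · obtain ⟨i, j, hij, hlt⟩ : ∃ i j, x i = x j ∧ i < j := by
      obtain ⟨i, j, hij, hne⟩ := Function.not_injective_iff.1 hinj
      rcases lt_or_gt_of_ne hne with h | h
      · exact ⟨i, j, hij, h⟩
      · exact ⟨j, i, hij.symm, h⟩
    have hshift : ∀ k, x (i + k) = x (j + k) := by
      intro k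
      induction k with
      | zero => exact hij
      | succ k ih => rw [← add_assoc, ← add_assoc, hx, hx, ih]
    have hall : ∀ m, x m ∈ (range j).image x := by
      intro m
      induction m using Nat.strong_induction_on with
      | _ m ih =>
        by_cases hm : m < j
        · exact mem_image_of_mem _ (mem_range.2 hm)
        · obtain ⟨k, rfl⟩ := Nat.exists_eq_add_of_le (not_lt.1 hm)
          rw [← hshift]
          exact ih _ (by omega)
    refine ⟨(range j).image x, hall n, fun s hs => ?_, fun k _ => hall k⟩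
    obtain ⟨k, -, hk⟩ := mem_image.1 hs
    exact ⟨k, hk⟩

end Pool.Agent.H797Z
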