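import Mathlib
import Pool.Agent.H797Z.Deriv

set_option autoImplicit false

namespace Pool.Agent.H797Z

open Filter Topology Finset Matrix
open scoped ZeroAtInfty

variable {Ω : Type*} [TopologicalSpace Ω]

theorem urysohn [LocallyCompactSpace Ω] [T2Space Ω] {K F : Set Ω} (hK : IsCompact K)
    (hF : IsClosed F) (h : Disjoint K F) :
    ∃ g : C₀(Ω, ℂ), (∀ y ∈ K, g y = 1) ∧ (∀ y ∈ F, g y = 0) ∧ ∀ y, ‖1 - g y‖ ≤ 1 := by
  obtain ⟨f, h1, h0, hc, hI⟩ := exists_continuous_one_zero_of_isCompact hK hF h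
  have hc' : HasCompactSupport (fun y => (f y : ℂ)) :=
    hc.comp_left (g := fun r : ℝ => (r : ℂ)) (by simp)
  refine ⟨⟨⟨fun y => (f y : ℂ), by fun_prop⟩, hc'.is_zero_at_infty⟩, fun y hy => ?_,
    fun y hy => ?_, fun y => ?_⟩
  · change (f y : ℂ) = 1
    rw [h1 hy]; simp
  · change (f y : ℂ) = 0
    rw [h0 hy]; simp
  · change ‖1 - (f y : ℂ)‖ ≤ 1
    rw [← Complex.ofReal_one, ← Complex.ofReal_sub, Complex.norm_real, Real.norm_eq_abs,
      abs_le]
    constructor <;> linarith [(hI y).1, (hI y).2]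

open Classical in
/-- A finite-dimensional representation of a semicrossed product along an orbit. -/
structure OrbitRep (σ : CocompactMap Ω Ω) (T : Type*) [NonUnitalNormedRing T] [NormedSpace ℂ T]
    (ι : Type*) [Fintype ι] [DecidableEq ι] where
  π : C₀(Ω, ℂ) →ₗ[ℂ] T
  t : C₀(Ω, ℂ) →ₗ[ℂ] T
  π_mul : ∀ f g, π (f * g) = π f * π g
  left : ∀ f F, π f * t F = t (f.comp σ * F)
  right : ∀ F g, t F * π g = t (F * g)
  norm_π : ∀ f, ‖π f‖ ≤ ‖f‖
  norm_t : ∀ F, ‖t F‖ ≤ ‖F‖
  induct : ∀ q : T → Prop, (∀ f, q (π f)) → (∀ F, q (t F)) → (∀ x y, q x → q y → q (x + y)) →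
    (∀ (c : ℂ) x, q x → q (c • x)) → (∀ x y, q x → q y → q (x * y)) → IsClosed {x | q x} →
    ∀ x, q x
  x : ℕ → Ω
  x_succ : ∀ n, x (n + 1) = σ (x n)
  p : ι → Ω
  p_inj : Function.Injective p
  idx : ι → ℕ
  x_idx : ∀ i, x (idx i) = p i
  back : ∀ n i, x (n + 1) = p i → ∃ j, x n = p j
  z : ℂ
  z_ne : z ≠ 0
  ρ : T →ₙₐ[ℂ] Matrix ι ι ℂ
  cont : Continuous ρ
  ρ_π : ∀ f, ρ (π f) = diagonal fun i => f (p i)
  ρ_t : ∀ F i j, ρ (t F) i j = if σ (p j) = p i then z * F (p j) else 0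

namespace OrbitRep

variable [LocallyCompactSpace Ω] [T2Space Ω] {σ : CocompactMap Ω Ω} {T : Type*}
  [NonUnitalNormedRing T] [NormedSpace ℂ T] {ι : Type*} [Fintype ι] [DecidableEq ι]
  (R : OrbitRep σ T ι)

theorem sep (s : Ω) : ∃ g : C₀(Ω, ℂ), g s = 1 ∧ ∀ i, R.p i ≠ s → g (R.p i) = 0 := by
  obtain ⟨g, h1, h0, -⟩ := urysohn (K := {s}) (F := Set.range R.p \ {s}) isCompact_singleton
    ((Set.finite_range R.p).subset Set.sdiff_subset).isClosed Set.disjoint_sdiff_right
  exact ⟨g, h1 s rfl, fun i hi => h0 _ ⟨⟨i, rfl⟩, hi⟩⟩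

theorem approx (f : C₀(Ω, ℂ)) (hf : ∀ i, f (R.p i) = 0) {ε : ℝ} (hε : 0 < ε) :
    ∃ g : C₀(Ω, ℂ), (∀ i, g (R.p i) = 0) ∧ ‖f - f * g‖ ≤ ε := by
  have h1 : ∀ᶠ y in cocompact Ω, ‖f y‖ < ε := by
    have := (zero_at_infty f).norm
    rw [norm_zero] at this
    exact this.eventually (gt_mem_nhds hε)
  obtain ⟨K, hK, hK'⟩ := mem_cocompact.1 h1
  have hc : IsCompact (K ∩ {y | ε ≤ ‖f y‖}) :=
    hK.inter_right (isClosed_le continuous_const (map_continuous f).norm)
  obtain ⟨g, h1, h0, hg⟩ := urysohn hc (Set.finite_range R.p).isClosed (by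
    rw [Set.disjoint_left]
    rintro _ ⟨-, hy⟩ ⟨i, rfl⟩
    simp only [Set.mem_ofPred_eq, hf, norm_zero] at hy
    linarith)
  refine ⟨g, fun i => h0 _ ⟨i, rfl⟩, ?_⟩
  rw [← ZeroAtInftyContinuousMap.norm_toBCF_eq_norm]
  refine (BoundedContinuousFunction.norm_le hε.le).2 fun y => ?_
  change ‖f y - f y * g y‖ ≤ ε
  by_cases hy : ‖f y‖ < ε
  · rw [← mul_one_sub, norm_mul]
    exact (mul_le_of_le_one_right (norm_nonneg _) (hg y)).trans hy.le
  · have hyK : y ∈ K := by
      by_contra hn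
      exact hy (hK' hn)
    rw [h1 y ⟨hyK, not_lt.1 hy⟩]; simpa using hε.le

/-- point bump functions -/
noncomputable def e (i : ι) : C₀(Ω, ℂ) := (R.sep (R.p i)).choose

theorem e_apply (i j : ι) : R.e i (R.p j) = if j = i then 1 else 0 := by
  split_ifs with h
  · rw [h]; exact (R.sep (R.p i)).choose_spec.1
  · exact (R.sep (R.p i)).choose_spec.2 j fun h' => h (R.p_inj h')

theorem ρ_e (i : ι) : R.ρ (R.π (R.e i)) = single i i 1 := by
  rw [R.ρ_π]
  ext a b
  simp only [R.e_apply, diagonal_apply, single_apply]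
  by_cases h : a = b
  · subst h; simp [eq_comm]
  · rw [if_neg h, if_neg]
    rintro ⟨rfl, rfl⟩; exact h rfl

/-- derivations along the representation -/
def IsDer (D : T →L[ℂ] Matrix ι ι ℂ) : Prop := ∀ a b, D (a * b) = D a * R.ρ b + R.ρ a * D b

omit [LocallyCompactSpace Ω] [T2Space Ω] in
theorem ρ_π_zero {f : C₀(Ω, ℂ)} (hf : ∀ i, f (R.p i) = 0) : R.ρ (R.π f) = 0 := by
  rw [R.ρ_π]; simp [hf]

omit [LocallyCompactSpace Ω] [T2Space Ω] in
theorem ρ_t_zero {f : C₀(Ω, ℂ)} (hf : ∀ i, f (R.p i) = 0) : R.ρ (R.t f) = 0 := by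
  ext i j; rw [R.ρ_t]; simp [hf]

variable {R}

theorem IsDer.π_zero {D : T →L[ℂ] Matrix ι ι ℂ} (hD : R.IsDer D) {f : C₀(Ω, ℂ)}
    (hf : ∀ i, f (R.p i) = 0) : D (R.π f) = 0 := by
  refine (isClosed_eq D.continuous continuous_const).closure_subset
    (Metric.mem_closure_iff.2 fun ε hε => ?_)
  obtain ⟨g, hg, hfg⟩ := R.approx f hf (half_pos hε)
  refine ⟨R.π (f * g), ?_, ?_⟩
  · change D _ = 0
    rw [R.π_mul, hD, R.ρ_π_zero hf, R.ρ_π_zero hg]; simp
  · rw [dist_eq_norm, ← map_sub]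
    exact ((R.norm_π _).trans hfg).trans_lt (half_lt_self hε)

theorem IsDer.t_zero {D : T →L[ℂ] Matrix ι ι ℂ} (hD : R.IsDer D) {f : C₀(Ω, ℂ)}
    (hf : ∀ i, f (R.p i) = 0) : D (R.t f) = 0 := by
  refine (isClosed_eq D.continuous continuous_const).closure_subset
    (Metric.mem_closure_iff.2 fun ε hε => ?_)
  obtain ⟨g, hg, hfg⟩ := R.approx f hf (half_pos hε)
  refine ⟨R.t (f * g), ?_, ?_⟩
  · change D _ = 0
    rw [← R.right, hD, R.ρ_t_zero hf, R.ρ_π_zero hg]; simp
  · rw [dist_eq_norm, ← map_sub]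
    exact ((R.norm_t _).trans hfg).trans_lt (half_lt_self hε)

variable (R) in
/-- inner derivations along the representation -/
noncomputable def ad (Y : Matrix ι ι ℂ) : T →L[ℂ] Matrix ι ι ℂ where
  toFun a := Y * R.ρ a - R.ρ a * Y
  map_add' a b := by simp only [map_add, mul_add, add_mul]; abel
  map_smul' c a := by simp [smul_sub]
  cont := by have := R.cont; fun_prop

omit [LocallyCompactSpace Ω] [T2Space Ω] in
theorem ad_apply (Y : Matrix ι ι ℂ) (a : T) : R.ad Y a = Y * R.ρ a - R.ρ a * Y := rfl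

omit [LocallyCompactSpace Ω] [T2Space Ω] in
theorem IsDer.sub_ad {D : T →L[ℂ] Matrix ι ι ℂ} (hD : R.IsDer D) (Y : Matrix ι ι ℂ) :
    R.IsDer (D - R.ad Y) := by
  intro a b
  simp only [_root_.sub_apply, ad_apply, hD a b, map_mul]
  noncomm_ring

theorem IsDer.exists_π {D : T →L[ℂ] Matrix ι ι ℂ} (hD : R.IsDer D) :
    ∃ Y, ∀ f, (D - R.ad Y) (R.π f) = 0 := by
  refine ⟨∑ i, D (R.π (R.e i)) * single i i 1, fun f => ?_⟩
  set Y : Matrix ι ι ℂ := ∑ i, D (R.π (R.e i)) * single i i 1 with hY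
  have hD' := hD.sub_ad Y
  have h1 : ∀ i j, single j j (1 : ℂ) * D (R.π (R.e i))
      = (if i = j then D (R.π (R.e j)) else 0) - D (R.π (R.e j)) * single i i 1 := by
    intro i j
    have h := hD (R.π (R.e j)) (R.π (R.e i))
    rw [R.ρ_e, R.ρ_e, ← R.π_mul] at h
    rw [eq_sub_iff_add_eq', ← h]
    split_ifs with hij
    · subst hij
      rw [← sub_eq_zero, ← map_sub, ← map_sub]
      refine hD.π_zero fun k => ?_
      by_cases hk : k = i <;> simp [R.e_apply, hk]
    · refine hD.π_zero fun k => ?_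
      simp only [ZeroAtInftyContinuousMap.coe_mul, Pi.mul_apply, R.e_apply]
      split_ifs with h1 h2
      · exact absurd (h1.symm.trans h2) (by first | exact hij | exact Ne.symm hij)
      all_goals simp
  have h2 : ∀ j, (D - R.ad Y) (R.π (R.e j)) = 0 := by
    intro j
    rw [_root_.sub_apply, ad_apply, R.ρ_e, hY, Finset.sum_mul, Finset.mul_sum,
      sum_eq_single j (fun i _ hij => by rw [mul_assoc, single_mul_single_of_ne _ _ _ _ hij,
        mul_zero]) (by simp)]
    simp only [← mul_assoc, h1, sub_mul, sum_sub_distrib, ite_mul, zero_mul, sum_ite_eq',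
      mem_univ, if_true]
    simp only [mul_assoc, single_mul_single_same, mul_one, ← Finset.mul_sum]
    rw [sum_single_one, mul_one]
    abel
  have h3 : f = (f - ∑ i, f (R.p i) • R.e i) + ∑ i, f (R.p i) • R.e i := by abel
  rw [h3, map_add, map_add, hD'.π_zero, map_sum, map_sum, zero_add]
  · refine sum_eq_zero fun i _ => ?_
    rw [map_smul, map_smul, h2, smul_zero]
  · intro k
    have : (∑ i, f (R.p i) • R.e i) (R.p k) = ∑ i, f (R.p i) * R.e i (R.p k) := by
      let ev : C₀(Ω, ℂ) →+ ℂ := ⟨⟨fun g => g (R.p k), rfl⟩, fun _ _ => rfl⟩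
      exact map_sum ev _ _
    change f (R.p k) - (∑ i, f (R.p i) • R.e i) (R.p k) = 0
    rw [this]
    simp [R.e_apply]

theorem IsDer.entry_t {D : T →L[ℂ] Matrix ι ι ℂ} (hD : R.IsDer D) (h0 : ∀ f, D (R.π f) = 0)
    (F : C₀(Ω, ℂ)) (i j : ι) : D (R.t F) i j = F (R.p j) * D (R.t (R.e j)) i j := by
  have hr : ∀ G g, D (R.t (G * g)) i j = D (R.t G) i j * g (R.p j) := by
    intro G g
    rw [← R.right, hD, h0, R.ρ_π, mul_zero, add_zero, mul_diagonal]
  have h1 := hr (F - F (R.p j) • R.e j) (R.e j)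
  rw [hD.t_zero] at h1
  · simp only [R.e_apply, if_true, mul_one, map_sub, map_smul, Matrix.zero_apply, Matrix.sub_apply,
      Matrix.smul_apply, smul_eq_mul] at h1
    exact sub_eq_zero.1 h1.symm
  · intro k
    change (F (R.p k) - F (R.p j) * R.e j (R.p k)) * R.e j (R.p k) = 0
    rw [R.e_apply]
    split_ifs with h
    · subst h; simp
    · simp

theorem IsDer.entry_t_ne {D : T →L[ℂ] Matrix ι ι ℂ} (hD : R.IsDer D) (h0 : ∀ f, D (R.π f) = 0)
    (F : C₀(Ω, ℂ)) {i j : ι} (hij : σ (R.p j) ≠ R.p i) : D (R.t F) i j = 0 := by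
  obtain ⟨g, hg1, hg0⟩ := R.sep (σ (R.p j))
  have h1 : D (R.t (F * g.comp σ)) i j = D (R.t F) i j * g (σ (R.p j)) := by
    rw [← R.right, hD, h0, R.ρ_π, mul_zero, add_zero, mul_diagonal]; rfl
  have h2 : D (R.t (g.comp σ * F)) i j = g (R.p i) * D (R.t F) i j := by
    rw [← R.left, hD, h0, R.ρ_π, zero_mul, zero_add, diagonal_mul]
  rw [mul_comm F, h2, hg1, hg0 i hij.symm] at h1
  simpa using h1.symm

theorem IsDer.exists_t [IsScalarTower ℂ T T] [SMulCommClass ℂ T T]
    {D : T →L[ℂ] Matrix ι ι ℂ} (hD : R.IsDer D) (h0 : ∀ f, D (R.π f) = 0)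
    (hS : ∀ a, R.ρ a = 0 → ∀ i c, D a = single i i c → c = 0) :
    ∃ y : ι → ℂ, ∀ F, (D - R.ad (diagonal y)) (R.t F) = 0 := by
  classical
  let φ : Ω → ℂ := fun s => ∑ j, ∑ i, if R.p j = s then D (R.t (R.e j)) i j / R.z else 0
  have hφ : ∀ i j, σ (R.p j) = R.p i → D (R.t (R.e j)) i j = R.z * φ (R.p j) := by
    intro i j hij
    simp only [φ, R.p_inj.eq_iff]
    rw [sum_eq_single j (fun b _ hb => by simp [hb]) (by simp), sum_eq_single i _ (by simp)]
    · simp only [if_true]; field_simp [R.z_ne]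
    · intro b _ hb
      rw [hD.entry_t_ne h0 _ (fun h => hb (R.p_inj (h.symm.trans hij)))]; simp
  have hρe : ∀ i j, σ (R.p j) = R.p i → R.ρ (R.t (R.e j)) = single i j R.z := by
    intro i j hij
    ext a b
    rw [R.ρ_t, R.e_apply, single_apply]
    by_cases hb : b = j
    · subst hb
      simp only [hij, R.p_inj.eq_iff, if_true, mul_one, and_true]
    · simp [hb, Ne.symm hb]
  have hDe : ∀ i j, σ (R.p j) = R.p i → D (R.t (R.e j)) = single i j (R.z * φ (R.p j)) := by
    intro i j hij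
    ext a b
    rw [single_apply]
    by_cases hb : b = j
    · subst hb
      by_cases ha : i = a
      · subst ha; simp [hφ i b hij]
      · rw [hD.entry_t_ne h0 _ (fun h => ha (R.p_inj (hij.symm.trans h)))]; simp [ha]
    · rw [hD.entry_t h0, R.e_apply]; simp [hb, Ne.symm hb]
  have hW : ∀ n j, R.x n = R.p j → ∀ l i, R.x (n + l) = R.p i → ∃ W : T,
      R.ρ W = single i j (R.z ^ l) ∧
      D W = single i j (R.z ^ l * ∑ k ∈ range l, φ (R.x (n + k))) := by
    intro n j hj l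
    induction l with
    | zero =>
      intro i hi
      obtain rfl : i = j := R.p_inj (hi.symm.trans hj)
      exact ⟨R.π (R.e i), by simp [R.ρ_e], by simp [h0]⟩
    | succ l ih =>
      intro i hi
      obtain ⟨k, hk⟩ := R.back (n + l) i hi
      obtain ⟨W, hW1, hW2⟩ := ih k hk
      have hσ : σ (R.p k) = R.p i := by rw [← hk, ← R.x_succ]; exact hi
      refine ⟨R.t (R.e k) * W, ?_, ?_⟩
      · rw [map_mul, hρe i k hσ, hW1, single_mul_single_same, pow_succ']
      · rw [hD, hρe i k hσ, hDe i k hσ, hW1, hW2, single_mul_single_same, single_mul_single_same,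
          ← single_add, sum_range_succ, hk]
        congr 1; ring
  have hcyc : ∀ n l j, R.x n = R.p j → R.x (n + l) = R.p j →
      ∑ k ∈ range l, φ (R.x (n + k)) = 0 := by
    intro n l j h1 h2
    obtain ⟨W, hW1, hW2⟩ := hW n j h1 l j h2
    have := hS (W - R.z ^ l • R.π (R.e j))
      (by rw [map_sub, map_smul, hW1, R.ρ_e, smul_single]; simp) j _
      (by rw [map_sub, map_smul, h0, smul_zero, sub_zero, hW2])
    exact (mul_eq_zero.1 this).resolve_left (pow_ne_zero _ R.z_ne)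
  have hwd : ∀ n m j, R.x n = R.p j → R.x m = R.p j →
      ∑ k ∈ range n, φ (R.x k) = ∑ k ∈ range m, φ (R.x k) := by
    intro n m j h1 h2
    wlog hnm : n ≤ m generalizing n m
    · exact (this m n h2 h1 (le_of_not_ge hnm)).symm
    obtain ⟨l, rfl⟩ := Nat.exists_eq_add_of_le hnm
    rw [sum_range_add, hcyc n l j h1 h2, add_zero]
  refine ⟨fun i => ∑ k ∈ range (R.idx i), φ (R.x k), fun F => ?_⟩
  ext i j
  rw [_root_.sub_apply, ad_apply, Matrix.sub_apply, Matrix.sub_apply, diagonal_mul,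
    mul_diagonal, R.ρ_t, Matrix.zero_apply]
  split_ifs with hij
  · rw [hD.entry_t h0, hφ i j hij, hwd (R.idx i) (R.idx j + 1) i (R.x_idx i)
      (by rw [R.x_succ, R.x_idx, hij]), sum_range_succ, R.x_idx]
    ring
  · rw [hD.entry_t_ne h0 _ hij]; simp

variable (R)

theorem ker_invariant [IsScalarTower ℂ T T] [SMulCommClass ℂ T T] (d : T →L[ℂ] T)
    (hd : ∀ a b, d (a * b) = d a * b + a * d b) (a : T) (ha : R.ρ a = 0) : R.ρ (d a) = 0 := by
  let D : T →L[ℂ] Matrix ι ι ℂ :=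
    { toFun := fun a => R.ρ (d a)
      map_add' := fun a b => by simp
      map_smul' := fun c a => by simp
      cont := R.cont.comp d.continuous }
  have hD : R.IsDer D := fun a b => by
    change R.ρ (d (a * b)) = R.ρ (d a) * R.ρ b + R.ρ a * R.ρ (d b)
    rw [hd, map_add, map_mul, map_mul]
  obtain ⟨Y, hY⟩ := hD.exists_π
  obtain ⟨y, hy⟩ := (hD.sub_ad Y).exists_t hY (by
    intro a ha i c h
    rw [_root_.sub_apply, ad_apply, ha, mul_zero, zero_mul, sub_zero, sub_zero] at h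
    exact sinclair R.ρ R.cont d hd ha i c h)
  have hD2 := (hD.sub_ad Y).sub_ad (diagonal y)
  have hall := R.induct (fun a => (D - R.ad Y - R.ad (diagonal y)) a = 0) (fun f => by
      rw [_root_.sub_apply, hY, ad_apply, R.ρ_π, diagonal_mul_diagonal,
        diagonal_mul_diagonal]
      simp [mul_comm]) hy
    (fun x y hx hy => by rw [map_add, hx, hy, add_zero])
    (fun c x hx => by rw [map_smul, hx, smul_zero])
    (fun x y hx hy => by rw [hD2, hx, hy]; simp)
    (isClosed_eq (ContinuousLinearMap.continuous _) continuous_const) a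
  simp only [_root_.sub_apply, ad_apply, ha, mul_zero, zero_mul, sub_zero] at hall
  exact hall

theorem gen (q : T → Prop) (h1 : ∀ e, R.ρ e * R.ρ e = R.ρ e → q e)
    (h2 : ∀ x y, R.ρ x = R.ρ y → q x → q y) (hadd : ∀ x y, q x → q y → q (x + y))
    (hsmul : ∀ (c : ℂ) x, q x → q (c • x)) (hmul : ∀ x y, q x → q y → q (x * y))
    (hc : IsClosed {x | q x}) : ∀ x, q x := by
  classical
  have hsum : ∀ g : ι → T, (∀ i, q (g i)) → q (∑ i, g i) := fun g hg =>
    Finset.sum_induction g q hadd (h1 0 (by simp)) fun i _ => hg i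
  have he : ∀ i, q (R.π (R.e i)) := fun i => h1 _ (by simp [R.ρ_e])
  refine R.induct q (fun f => ?_) (fun F => ?_) hadd hsmul hmul hc
  · refine h2 (∑ i, f (R.p i) • R.π (R.e i)) _ ?_ (hsum _ fun i => hsmul _ _ (he i))
    rw [map_sum, R.ρ_π]
    simp only [map_smul, R.ρ_e, smul_single, smul_eq_mul, mul_one]
    exact sum_single_eq_diagonal _
  · have hte : ∀ j, q (R.t (R.e j)) := by
      intro j
      have hcol : R.ρ (R.t (R.e j)) * single j j 1 = R.ρ (R.t (R.e j)) := by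
        ext a b
        by_cases hb : b = j
        · subst hb; simp
        · rw [mul_single_apply_of_ne _ _ _ _ _ hb, R.ρ_t, R.e_apply]; simp [hb]
      by_cases hj : σ (R.p j) = R.p j
      · refine h2 (R.z • R.π (R.e j)) _ ?_ (hsmul _ _ (he j))
        rw [map_smul, R.ρ_e]
        ext a b
        rw [R.ρ_t, R.e_apply, smul_single, single_apply]
        by_cases hb : b = j
        · subst hb
          simp [hj, R.p_inj.eq_iff]
        · simp [hb, Ne.symm hb]
      · have hrow : single j j 1 * R.ρ (R.t (R.e j)) = 0 := by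
          ext a b
          by_cases ha : a = j
          · subst ha
            rw [single_mul_apply_same, R.ρ_t, R.e_apply]
            by_cases hb : b = a
            · subst hb; simp [hj]
            · simp [hb]
          · rw [single_mul_apply_of_ne _ _ _ _ _ ha]; rfl
        have hsq : R.ρ (R.t (R.e j)) * R.ρ (R.t (R.e j)) = 0 := by
          rw [← hcol, mul_assoc, hcol, hrow, mul_zero]
        have := hadd _ _ (h1 (R.π (R.e j) + R.t (R.e j)) (by
          rw [map_add, R.ρ_e, add_mul, mul_add, mul_add, hrow, hcol, hsq]; simp))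
          (hsmul (-1) _ (he j))
        simpa using this
    refine h2 (∑ j, F (R.p j) • R.t (R.e j)) _ ?_ (hsum _ fun i => hsmul _ _ (hte i))
    rw [← sub_eq_zero, ← map_sub]
    simp only [← map_smul]
    rw [← map_sum, ← map_sub]
    refine R.ρ_t_zero fun k => ?_
    have : (∑ i, F (R.p i) • R.e i) (R.p k) = ∑ i, F (R.p i) * R.e i (R.p k) := by
      let ev : C₀(Ω, ℂ) →+ ℂ := ⟨⟨fun g => g (R.p k), rfl⟩, fun _ _ => rfl⟩
      exact map_sum ev _ _
    change (∑ i, F (R.p i) • R.e i) (R.p k) - F (R.p k) = 0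
    rw [this]
    simp [R.e_apply]

theorem deriv_eq [IsScalarTower ℂ T T] [SMulCommClass ℂ T T]
    (δ : T →L[ℂ] T) (hδ : ∀ a, ∃ d : ℕ → T →L[ℂ] T,
      (∀ n a b, d n (a * b) = d n a * b + a * d n b) ∧ Tendsto (fun n => d n a) atTop (𝓝 (δ a)))
    (a b : T) : R.ρ (δ (a * b) - (δ a * b + a * δ b)) = 0 := by
  have := local_deriv R.ρ R.cont R.ker_invariant R.gen (∑ i, R.π (R.e i))
    (by rw [map_sum]; simp only [R.ρ_e]; exact sum_single_one) δ hδ a b
  rw [map_sub, this, map_add, map_mul, map_mul, sub_self]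

end OrbitRep

end Pool.Agent.H797Z
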