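import Mathlib
import Pool.Agent.H797Z.Ell2
import Pool.Agent.H797Z.Orbit
import Pool.Agent.H797Z.CorrMain

set_option autoImplicit false

namespace Pool.Agent.H797Z

open Filter Topology Finset
open scoped ZeroAtInfty InnerProductSpace ComplexConjugate CStarAlgebra

section compress

variable {α ι : Type} [Fintype ι] [DecidableEq ι] (x : ℕ → α) (z : ℂ) (hz : ‖z‖ < 1)
  (p : ι → α) (idx : ι → ℕ)

/-- compression to the span of the co-invariant vectors -/
noncomputable def cmp : (L2 →L[ℂ] L2) →L[ℂ] Matrix ι ι ℂ where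
  toFun b := Matrix.of fun i j => (z ^ idx j)⁻¹ * ⟪eta x z hz (p i), b (bas (idx j))⟫_ℂ
  map_add' b c := by ext i j; simp [mul_add]
  map_smul' c b := by ext i j; simp; ring
  cont := by
    refine continuous_matrix fun i j => ?_
    simp only [Matrix.of_apply]
    fun_prop

/-- the span of the co-invariant vectors is invariant under the adjoint -/
def Inv (b : L2 →L[ℂ] L2) : Prop :=
  ∀ i ξ, ⟪eta x z hz (p i), b ξ⟫_ℂ = ∑ j, cmp x z hz p idx b i j * ⟪eta x z hz (p j), ξ⟫_ℂ

variable {x z hz p idx}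

theorem cmp_eq (hz0 : z ≠ 0) (hp : Function.Injective p) (hidx : ∀ i, x (idx i) = p i)
    {b : L2 →L[ℂ] L2} {M : Matrix ι ι ℂ}
    (h : ∀ i ξ, ⟪eta x z hz (p i), b ξ⟫_ℂ = ∑ j, M i j * ⟪eta x z hz (p j), ξ⟫_ℂ) :
    cmp x z hz p idx b = M ∧ Inv x z hz p idx b := by
  have e : cmp x z hz p idx b = M := by
    ext i j
    change (z ^ idx j)⁻¹ * ⟪eta x z hz (p i), b (bas (idx j))⟫_ℂ = _
    rw [h]
    simp only [inner_eta_bas, hidx, hp.eq_iff, mul_ite, mul_zero, sum_ite_eq, mem_univ, if_true]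
    field_simp
  exact ⟨e, fun i ξ => by rw [e, h]⟩

omit [DecidableEq ι] in
theorem of_bas {b : L2 →L[ℂ] L2} {M : Matrix ι ι ℂ}
    (h : ∀ i n, ⟪eta x z hz (p i), b (bas n)⟫_ℂ = ∑ j, M i j * ⟪eta x z hz (p j), bas n⟫_ℂ) :
    ∀ i ξ, ⟪eta x z hz (p i), b ξ⟫_ℂ = ∑ j, M i j * ⟪eta x z hz (p j), ξ⟫_ℂ := by
  intro i ξ
  have : (innerSL ℂ (eta x z hz (p i))).comp b = ∑ j, M i j • innerSL ℂ (eta x z hz (p j)) :=
    L2_ext fun n => by simpa using h i n
  simpa using congrArg (fun f : L2 →L[ℂ] ℂ => f ξ) this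

theorem Inv.mul (hz0 : z ≠ 0) (hp : Function.Injective p) (hidx : ∀ i, x (idx i) = p i)
    {b c : L2 →L[ℂ] L2} (hb : Inv x z hz p idx b) (hc : Inv x z hz p idx c) :
    cmp x z hz p idx (b * c) = cmp x z hz p idx b * cmp x z hz p idx c ∧
      Inv x z hz p idx (b * c) := by
  refine cmp_eq hz0 hp hidx fun i ξ => ?_
  rw [mul_apply_eq_comp, hb i]
  simp only [hc _ ξ, Matrix.mul_apply, Finset.mul_sum, Finset.sum_mul, mul_assoc]
  exact sum_comm

end compress

variable {Ω : Type} [TopologicalSpace Ω]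

theorem sep_of_orbit {B : Type} [NonUnitalCStarAlgebra B] (p : PreSetup B)
    (π : C₀(Ω, ℂ) →⋆ₙₐ[ℂ] B) (hA : ∀ a ∈ p.A, ∃ f, π f = a)
    (Φ : Ω → B →⋆ₙₐ[ℂ] (L2 →L[ℂ] L2))
    (h0 : ∀ y f, ⟪bas 0, Φ y (π f) (bas 0)⟫_ℂ = f y)
    (h1 : ∀ y, ∀ a ∈ p.A, ∀ n, ∃ c : ℂ, Φ y a (bas n) = c • bas n)
    (h2 : ∀ y, ∀ a ∈ p.X, ∀ n, ∃ c : ℂ, Φ y a (bas n) = c • bas (n + 1))
    {a : B} (ha : a ∈ p.T₀) (hz : ∀ y, Φ y a (bas 0) = 0) : a = 0 := by
  let _ := CStarAlgebra.spectralOrder (Unitization ℂ B)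
  have _ := CStarAlgebra.spectralOrderedRing (Unitization ℂ B)
  let Ψ : Ω → Unitization ℂ B →⋆ₐ[ℂ] (L2 →L[ℂ] L2) := fun y => Unitization.starLift (Φ y)
  have hΨ : ∀ y (b : Unitization ℂ B), Ψ y b = b.fst • 1 + Φ y b.snd := by
    intro y b
    change algebraMap ℂ _ b.fst + Φ y b.snd = _
    rw [Algebra.algebraMap_eq_smul_one]
  have hcl : ∀ y n k, IsClosed {b : Unitization ℂ B | ∃ c : ℂ, Ψ y b (bas n) = c • bas k} := by
    intro y n k
    have : {b : Unitization ℂ B | ∃ c : ℂ, Ψ y b (bas n) = c • bas k}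
        = {b | Ψ y b (bas n) = ⟪bas k, Ψ y b (bas n)⟫_ℂ • bas k} := by
      ext b
      refine ⟨?_, fun h => ⟨_, h⟩⟩
      rintro ⟨c, hc⟩
      change Ψ y b (bas n) = _
      rw [hc, inner_smul_right, inner_self_eq_norm_sq_to_K, norm_bas]; simp
    rw [this]
    have hc : Continuous (Ψ y) := map_continuous _
    exact isClosed_eq (by fun_prop) (by fun_prop)
  have hV : ∀ y k, ∀ b ∈ p.setup.V k, ∀ n, ∃ c : ℂ, Ψ y b (bas n) = c • bas (n + k) := by
    intro y k
    induction k with
    | zero =>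
      intro b hb n
      refine closure_minimal (s := (p.A₁ : Set (Unitization ℂ B))) (fun b hb => ?_)
        (hcl y n (n + 0)) hb
      obtain ⟨c, hc⟩ := h1 y _ hb n
      exact ⟨b.fst + c, by rw [hΨ]; simp [hc, add_smul]⟩
    | succ k ih =>
      intro b hb n
      refine Submodule.mul_induction_on hb ?_ ?_
      · intro m hm t ht
        obtain ⟨c, hc⟩ : ∃ c : ℂ, Ψ y t (bas n) = c • bas (n + 1) := by
          refine closure_minimal (s := (p.X₁ : Set (Unitization ℂ B))) (fun b hb => ?_)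
            (hcl y n (n + 1)) ht
          obtain ⟨c, hc⟩ := h2 y _ hb.2 n
          exact ⟨c, by rw [hΨ, hb.1]; simp [hc]⟩
        obtain ⟨c', hc'⟩ := ih m hm (n + 1)
        refine ⟨c * c', ?_⟩
        rw [map_mul, mul_apply_eq_comp, hc, map_smul, hc', smul_smul]
        congr 2; omega
      · rintro u v ⟨c, hc⟩ ⟨c', hc'⟩
        exact ⟨c + c', by rw [map_add, _root_.add_apply, hc, hc', add_smul]⟩
  have hin : ∀ y (u v : Unitization ℂ B), ⟪bas 0, Ψ y (star u * v) (bas 0)⟫_ℂ
      = ⟪Ψ y u (bas 0), Ψ y v (bas 0)⟫_ℂ := by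
    intro y u v
    rw [map_mul, map_star, mul_apply_eq_comp, ContinuousLinearMap.star_eq_adjoint,
      ContinuousLinearMap.adjoint_inner_right]
  have hE : ∀ y, ∀ u ∈ p.setup.T, ∀ v ∈ p.setup.T,
      ⟪bas 0, Ψ y (p.setup.E (star u * v)) (bas 0)⟫_ℂ = ⟪bas 0, Ψ y (star u * v) (bas 0)⟫_ℂ := by
    intro y u hu v hv
    have hc : Continuous (Ψ y) := map_continuous _
    refine p.setup.T_induction₂ (p := fun u v =>
      ⟪bas 0, Ψ y (p.setup.E (star u * v)) (bas 0)⟫_ℂ = ⟪bas 0, Ψ y (star u * v) (bas 0)⟫_ℂ)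
      hu hv ?_ ?_ ?_ ?_ ?_
    · intro j u hu k v hv
      by_cases hjk : j = k
      · subst hjk
        rw [p.setup.E_A (p.setup.star_mul_V j u hu v hv)]
      · obtain ⟨c, hc⟩ := hV y j u hu 0
        obtain ⟨c', hc'⟩ := hV y k v hv 0
        rw [p.setup.E_V_ne hjk hu hv, hin, hc, hc', inner_smul_left, inner_smul_right,
          inner_bas_left, inner_bas_left, bas_apply, if_neg (by omega)]
        simp
    · intro a b c ha hb
      simp only [star_add, add_mul, map_add, _root_.add_apply, inner_add_right, ha, hb]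
    · intro a b c ha hb
      simp only [mul_add, map_add, _root_.add_apply, inner_add_right, ha, hb]
    · intro z
      exact isClosed_eq (by fun_prop) (by fun_prop)
    · intro z
      exact isClosed_eq (by fun_prop) (by fun_prop)
  have haT := p.inr_mem_T ha
  set b := p.setup.E (star (a : Unitization ℂ B) * a) with hb
  have hbA : b ∈ p.setup.A := p.setup.E_star_mul_mem haT haT
  have hb1 : b.fst = 0 := by
    let fstL : Unitization ℂ B →L[ℂ] ℂ :=
      ⟨(Unitization.fstHom ℂ B).toLinearMap, Unitization.continuous_fst⟩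
    change fstL b = 0
    rw [hb, Setup.E_apply, ← fstL.intervalIntegral_comp_comm
      ((p.setup.γ_cont _).intervalIntegrable _ _)]
    have : ∀ θ, fstL (p.setup.γ θ (star (a : Unitization ℂ B) * a)) = 0 := by
      intro θ
      change (Unitization.starMap (p.γ θ) (star (a : Unitization ℂ B) * a)).fst = 0
      rw [PreSetup.starMap_apply]; simp
    simp only [this]
    simp
  have hb2 : ∀ y, ⟪bas 0, Φ y b.snd (bas 0)⟫_ℂ = 0 := by
    intro y
    have := hE y _ haT _ haT
    rw [← hb, hin, hΨ, hΨ, hb1] at this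
    simpa [hz y] using this
  have hb3 : b.snd ∈ closure (p.A : Set B) :=
    map_mem_closure (f := fun u : Unitization ℂ B => u.snd) Unitization.continuous_snd hbA
      fun u hu => hu
  have hb4 : b.snd = 0 := by
    refine norm_le_zero_iff.1 (le_of_forall_pos_le_add fun ε hε => ?_)
    obtain ⟨u, hu, hbu⟩ := Metric.mem_closure_iff.1 hb3 (ε / 2) (half_pos hε)
    obtain ⟨f, rfl⟩ := hA u hu
    rw [dist_eq_norm] at hbu
    have hf : ‖f‖ ≤ ε / 2 := by
      rw [← ZeroAtInftyContinuousMap.norm_toBCF_eq_norm]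
      refine (BoundedContinuousFunction.norm_le (half_pos hε).le).2 fun y => ?_
      change ‖f y‖ ≤ ε / 2
      have e : f y = -⟪bas 0, Φ y (b.snd - π f) (bas 0)⟫_ℂ := by
        rw [map_sub, _root_.sub_apply, inner_sub_right, hb2, h0]; simp
      rw [e, norm_neg]
      refine (norm_inner_le_norm _ _).trans ?_
      rw [norm_bas, one_mul]
      refine ((Φ y (b.snd - π f)).le_opNorm _).trans ?_
      rw [norm_bas, mul_one]
      exact (NonUnitalStarAlgHom.norm_apply_le _ _).trans hbu.le
    have h3 : ‖π f‖ ≤ ε / 2 := (NonUnitalStarAlgHom.norm_apply_le _ _).trans hf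
    have h4 := norm_add_le (b.snd - π f) (π f)
    rw [sub_add_cancel] at h4
    linarith
  have hb0 : b = 0 := Unitization.ext hb1 hb4
  exact Unitization.inr_injective (p.setup.E_faithful haT hb0)

theorem approx_local_derivation [LocallyCompactSpace Ω] [T2Space Ω] (σ : CocompactMap Ω Ω)
    {B : Type} [NonUnitalCStarAlgebra B] (π : C₀(Ω, ℂ) →⋆ₙₐ[ℂ] B) (t : C₀(Ω, ℂ) →ₗ[ℂ] B)
    (hU : IsUniversalToeplitzRep (dynCorr σ) π t)
    (δ : tensorAlgebra π t →L[ℂ] tensorAlgebra π t)
    (hδ : ∀ a, ∃ d : ℕ → tensorAlgebra π t →L[ℂ] tensorAlgebra π t,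
      (∀ n a b, d n (a * b) = d n a * b + a * d n b) ∧ Tendsto (fun n => d n a) atTop (𝓝 (δ a)))
    (a b : tensorAlgebra π t) : δ (a * b) = δ a * b + a * δ b := by
  classical
  obtain ⟨h, hgen, huniv⟩ := hU
  have hγ : ∀ θ : ℝ, ∃ ρ : B →⋆ₙₐ[ℂ] B, (∀ a, ρ (π a) = π a) ∧ ∀ ξ, ρ (t ξ) = (ch 1 θ • t) ξ := by
    intro θ
    refine huniv B π (ch 1 θ • t) ⟨fun a ξ => ?_, fun ξ η => ?_⟩
    · simp only [LinearMap.smul_apply, mul_smul_comm, h.1]
    · simp only [LinearMap.smul_apply, star_smul, smul_mul_smul_comm, star_ch_mul, one_smul, h.2]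
  choose γ hγ1 hγ2 using hγ
  let p : PreSetup B :=
    { A := NonUnitalStarAlgHom.range π
      X := LinearMap.range t
      γ := γ
      mul_left := by
        rintro _ ⟨a, rfl⟩ _ ⟨ξ, rfl⟩
        exact ⟨_, (h.1 a ξ).symm⟩
      mul_right := by
        rintro _ ⟨a, rfl⟩ _ ⟨ξ, rfl⟩
        exact ⟨_, (h.act ξ a).symm⟩
      star_mul_mem := by
        rintro _ ⟨η, rfl⟩ _ ⟨ξ, rfl⟩
        exact ⟨_, (h.2 η ξ).symm⟩
      γ_A := by
        rintro θ _ ⟨a, rfl⟩
        exact hγ1 θ a
      γ_X := by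
        rintro θ _ ⟨a, rfl⟩
        exact hγ2 θ a
      gen := hgen }
  let x : Ω → ℕ → Ω := fun y n => σ^[n] y
  have hx : ∀ y n, x y (n + 1) = σ (x y n) := fun y n => Function.iterate_succ_apply' _ _ _
  choose Φ hΦ1 hΦ2 using fun y => huniv (L2 →L[ℂ] L2) (piOp (x y)) (tOp (x y))
    (isToeplitzRep_op σ (x y) (hx y))
  have hπT : ∀ f, π f ∈ tensorAlgebra π t := fun f => p.A_le_T₀ ⟨f, rfl⟩
  have htT : ∀ f, t f ∈ tensorAlgebra π t := fun f => p.X_le_T₀ ⟨f, rfl⟩
  let _ : NormedSpace ℂ (tensorAlgebra π t) :=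
    { (inferInstance : Module ℂ (tensorAlgebra π t)) with
      norm_smul_le := fun c u => norm_smul_le c (u : B) }
  have hind : ∀ q : tensorAlgebra π t → Prop, (∀ f, q ⟨π f, hπT f⟩) → (∀ F, q ⟨t F, htT F⟩) →
      (∀ x y, q x → q y → q (x + y)) → (∀ (c : ℂ) x, q x → q (c • x)) →
      (∀ x y, q x → q y → q (x * y)) → IsClosed {x | q x} → ∀ x, q x := by
    intro q q1 q2 q3 q4 q5 q6 u
    have := p.T₀_induction (q := fun y => ∀ hy : y ∈ tensorAlgebra π t, q ⟨y, hy⟩) u.2
      (by rintro _ ⟨f, rfl⟩ _; exact q1 f) (by rintro _ ⟨f, rfl⟩ _; exact q2 f)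
      (fun y hy z hz h1 h2 _ => q3 _ _ (h1 hy) (h2 hz))
      (fun y hy z hz h1 h2 _ => q5 _ _ (h1 hy) (h2 hz))
      (fun c y hy h1 _ => q4 c _ (h1 hy)) (by
        have := p.T₀_closed.isClosedEmbedding_subtypeVal.isClosedMap _ q6
        convert this using 1
        ext y
        constructor
        · rintro ⟨hy, hq⟩
          exact ⟨⟨y, hy⟩, hq hy, rfl⟩
        · rintro ⟨u, hu, rfl⟩
          exact ⟨u.2, fun _ => hu⟩)
    exact this u.2
  set D := δ (a * b) - (δ a * b + a * δ b) with hD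
  have key : ∀ y n, Φ y D (bas 0) n = 0 := by
    intro y n
    obtain ⟨S, hn, hS, hback⟩ := exists_back_closed σ (x y) (hx y) n
    choose idx hidx using fun i : S => hS i.1 i.2
    have main : ∀ r : ℝ, 0 < r → r < 1 →
        ∑' k, (if x y k = x y n then Φ y D (bas 0) k else 0) * (r : ℂ) ^ k = 0 := by
      intro r hr0 hr1
      have hz : ‖(r : ℂ)‖ < 1 := by rwa [Complex.norm_real, Real.norm_eq_abs, abs_of_pos hr0]
      have hz0 : (r : ℂ) ≠ 0 := by exact_mod_cast hr0.ne'
      have hp : Function.Injective (Subtype.val : S → Ω) := Subtype.val_injective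
      have c1 : ∀ f, cmp (x y) r hz Subtype.val idx (Φ y (π f))
          = Matrix.diagonal (fun i : S => f i) ∧ Inv (x y) r hz Subtype.val idx (Φ y (π f)) := by
        intro f
        refine cmp_eq hz0 hp hidx (of_bas fun i k => ?_)
        rw [hΦ1, piOp_bas, inner_smul_right]
        simp only [Matrix.diagonal_apply, ite_mul, zero_mul, sum_ite_eq, mem_univ, if_true,
          inner_eta_bas]
        split_ifs with hk
        · rw [hk]
        · simp
      have c2 : ∀ F, cmp (x y) r hz Subtype.val idx (Φ y (t F))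
          = Matrix.of (fun i j : S => if σ j = i then r * F j else 0) ∧
            Inv (x y) r hz Subtype.val idx (Φ y (t F)) := by
        intro F
        refine cmp_eq hz0 hp hidx (of_bas fun i k => ?_)
        rw [hΦ2, tOp_bas, inner_smul_right]
        simp only [Matrix.of_apply, inner_eta_bas]
        by_cases hk : x y k ∈ S
        · rw [sum_eq_single ⟨x y k, hk⟩ (fun j _ hj => by
            rw [if_neg (fun h : x y k = j => hj (Subtype.ext h.symm)), mul_zero]) (by simp), hx]
          simp only [if_true]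
          split_ifs
          · ring
          · simp
        · rw [if_neg (fun h : x y (k + 1) = i => hk (hback k (h ▸ i.2))), mul_zero]
          refine (sum_eq_zero fun j _ => ?_).symm
          rw [if_neg (fun h : x y k = j => hk (h ▸ j.2)), mul_zero]
      have hΦc : Continuous (Φ y) := map_continuous _
      have c3 : ∀ u : tensorAlgebra π t, Inv (x y) r hz Subtype.val idx (Φ y u) := by
        refine hind _ (fun f => (c1 f).2) (fun F => (c2 F).2) ?_ ?_ ?_ ?_
        · intro u v hu hv i ξ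
          simp only [AddMemClass.coe_add, map_add, _root_.add_apply, inner_add_right,
            hu i ξ, hv i ξ, Matrix.add_apply, add_mul, sum_add_distrib]
        · intro c u hu i ξ
          simp only [SetLike.val_smul, map_smul, _root_.smul_apply, inner_smul_right,
            hu i ξ, Matrix.smul_apply, smul_eq_mul, Finset.mul_sum, mul_assoc]
        · intro u v hu hv
          rw [MulMemClass.coe_mul, map_mul]
          exact (hu.mul hz0 hp hidx hv).2
        · simp only [Inv, Set.ofPred_forall]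
          exact isClosed_iInter fun i => isClosed_iInter fun ξ =>
            isClosed_eq (by fun_prop) (by fun_prop)
      let R : OrbitRep σ (tensorAlgebra π t) S :=
        { π := (π : C₀(Ω, ℂ) →ₗ[ℂ] B).codRestrict (tensorAlgebra π t).toSubmodule hπT
          t := t.codRestrict (tensorAlgebra π t).toSubmodule htT
          π_mul := fun f g => Subtype.ext (map_mul π f g)
          left := fun f F => Subtype.ext (h.1 f F)
          right := fun F g => Subtype.ext (h.act F g)
          norm_π := fun f => NonUnitalStarAlgHom.norm_apply_le π f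
          norm_t := fun F => by
            change ‖t F‖ ≤ ‖F‖
            have h1 : ‖t F‖ * ‖t F‖ ≤ ‖F‖ ^ 2 := by
              rw [← CStarRing.norm_star_mul_self, h.2, (dynCorr σ).norm_sq]
              exact NonUnitalStarAlgHom.norm_apply_le π _
            nlinarith [norm_nonneg F, norm_nonneg (t F)]
          induct := hind
          x := x y
          x_succ := hx y
          p := Subtype.val
          p_inj := hp
          idx := idx
          x_idx := hidx
          back := fun k i hk => ⟨⟨x y k, hback k (hk ▸ i.2)⟩, rfl⟩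
          z := r
          z_ne := hz0
          ρ :=
            { toFun := fun u => cmp (x y) r hz Subtype.val idx (Φ y u)
              map_smul' := fun c u => by simp
              map_zero' := by simp
              map_add' := fun u v => by simp
              map_mul' := fun u v => by
                rw [MulMemClass.coe_mul, map_mul]
                exact ((c3 u).mul hz0 hp hidx (c3 v)).1 }
          cont := by
            change Continuous fun u : tensorAlgebra π t => cmp (x y) r hz Subtype.val idx (Φ y u)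
            fun_prop
          ρ_π := fun f => (c1 f).1
          ρ_t := fun F i j => by
            change cmp (x y) r hz Subtype.val idx (Φ y (t F)) i j = _
            rw [(c2 F).1, Matrix.of_apply] }
      have h0 : cmp (x y) r hz Subtype.val idx (Φ y D) = 0 := R.deriv_eq δ hδ a b
      have h1 := c3 D ⟨x y n, hn⟩ (bas 0)
      rw [h0, inner_eta] at h1
      simpa using h1
    have := coeff_eq_zero ‖Φ y D (bas 0)‖ n
      (fun k => if x y k = x y n then Φ y D (bas 0) k else 0) (fun k => by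
        split_ifs
        · exact lp.norm_apply_le_norm (by norm_num) _ k
        · simp) main
    simpa using this
  have hD0 : (D : B) = 0 := by
    refine sep_of_orbit p π (fun a ha => ha) Φ ?_ ?_ ?_ D.2 fun y => lp.ext (funext (key y))
    · intro y f
      rw [hΦ1, piOp_bas, inner_smul_right, inner_self_eq_norm_sq_to_K, norm_bas]
      simp [x]
    · rintro y _ ⟨f, rfl⟩ n
      exact ⟨_, by rw [← piOp_bas (x y) f n, ← hΦ1]; rfl⟩
    · rintro y _ ⟨f, rfl⟩ n
      exact ⟨_, by rw [hΦ2, tOp_bas]⟩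
  exact sub_eq_zero.1 (Subtype.ext hD0)

end Pool.Agent.H797Z
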