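import Mathlib

set_option autoImplicit false

namespace Pool.Agent.H797Z.Semi

open scoped ZeroAtInfty

variable {Ω : Type} [TopologicalSpace Ω]

/-- The Toeplitz relations for the correspondence `X = C₀(Ω)` over `C₀(Ω)` of the dynamical system
`(Ω, σ)`: left action `(f F)(x) = f(σ x) F(x)`, inner product `⟨F, G⟩(x) = conj(F x) G(x)`. -/
def IsRep (σ : CocompactMap Ω Ω) {B : Type} [Mul B] [Star B] (π t : C₀(Ω, ℂ) → B) : Prop :=
  (∀ f F, π f * t F = t (f.comp σ * F)) ∧ ∀ F G, star (t F) * t G = π (star F * G)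

/-- `(π, t)` is the universal Toeplitz representation and `B` is the C*-algebra it generates. -/
def IsUniversalRep (σ : CocompactMap Ω Ω) {B : Type} [NonUnitalCStarAlgebra B]
    (π : C₀(Ω, ℂ) →⋆ₙₐ[ℂ] B) (t : C₀(Ω, ℂ) →ₗ[ℂ] B) : Prop :=
  IsRep σ π t ∧
    (NonUnitalStarAlgebra.adjoin ℂ (Set.range π ∪ Set.range t)).topologicalClosure = ⊤ ∧
    ∀ (B' : Type) [NonUnitalCStarAlgebra B'] (π' : C₀(Ω, ℂ) →⋆ₙₐ[ℂ] B') (t' : C₀(Ω, ℂ) →ₗ[ℂ] B'),
      IsRep σ π' t' → ∃ ρ : B →⋆ₙₐ[ℂ] B', (∀ f, ρ (π f) = π' f) ∧ ∀ F, ρ (t F) = t' F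

/-- The norm-closed (non-selfadjoint) subalgebra of `B` generated by all `π f` and `t F`. -/
noncomputable def semicrossed {B : Type} [NonUnitalCStarAlgebra B] (π t : C₀(Ω, ℂ) → B) :
    NonUnitalSubalgebra ℂ B :=
  (NonUnitalAlgebra.adjoin ℂ (Set.range π ∪ Set.range t)).topologicalClosure

/-- The Leibniz rule. -/
def IsDerivation {T : Type} [Mul T] [Add T] (d : T → T) : Prop :=
  ∀ x y, d (x * y) = d x * y + x * d y

/-- At each point `δ` is the limit of the values of a sequence of bounded derivations. -/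
def IsApproxLocalDerivation {T : Type} [TopologicalSpace T] [NonUnitalNonAssocSemiring T]
    [Module ℂ T] (δ : T →L[ℂ] T) : Prop :=
  ∀ a, ∃ d : ℕ → T →L[ℂ] T, (∀ n, IsDerivation (d n)) ∧
    Filter.Tendsto (fun n => d n a) Filter.atTop (nhds (δ a))

end Pool.Agent.H797Z.Semi
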